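import Pool.Agent.L0h10.RW.Fx
import Pool.Agent.N996.FP.Sf

/-!
# Matrices fixing the invariant tensors with two factors: structures of abelian type
-/

set_option linter.unusedSectionVars false

namespace Pool.Agent.L0h10.RP

open Matrix Pool.Agent.N996.BP Pool.Agent.N996.FP ComplexConjugate ComplexOrder

variable {ι : Type} [Fintype ι] [DecidableEq ι]

section

variable (H : HData ι)

/-- **The decomposition theorem for Hodge structures.** -/
theorem exists_decG {V : Submodule ℂ (ι → ℂ)} (hV : ∀ z ∈ ho H, ∀ v ∈ V, z *ᵥ v ∈ V)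
    (hV0 : ∀ z ∈ ho H, (∀ v ∈ V, z *ᵥ v = 0) → z = 0) {p p' : Matrix ι ι ℂ}
    (hpp : p * p' = 1) (had : ∀ z ∈ ho H, p * z * p' ∈ ho H)
    (had' : ∀ z ∈ ho H, p' * z * p ∈ ho H)
    (hPi : ∀ k, ∃ (κ : Type) (_ : Fintype κ) (_ : DecidableEq κ)
      (Pi : V [⋀^Fin k]→ₗ[ℂ] ((κ → ι) → ℂ)),
      (∀ z (hz : z ∈ ho H) (v : Fin k → V), dk κ z *ᵥ Pi v =
        ∑ j, Pi (Function.update v j ⟨z *ᵥ (v j : ι → ℂ), hV z hz _ (v j).2⟩)) ∧
      (∀ v, LinearIndependent ℂ v → Pi v ≠ 0) ∧ Fixes H p (κ ⊕ κ)) :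
    ∃ q ∈ So H, ∃ q' ∈ So H, q * q' = 1 ∧ ∀ w ∈ ho H, (q' * p) * w = w * (q' * p) := by
  -- the subspace in orthonormal coordinates
  let Vn : Submodule ℂ (ι → ℂ) := V.comap (Matrix.mulVecLin (Mi H))
  have hVn : ∀ z ∈ hn H, ∀ v ∈ Vn, z *ᵥ v ∈ Vn := by
    intro z hz v hv
    change Mi H *ᵥ (z *ᵥ v) ∈ V
    have h1 : Mi H *ᵥ (z *ᵥ v) = cj H z *ᵥ (Mi H *ᵥ v) := by
      rw [Matrix.mulVec_mulVec, Matrix.mulVec_mulVec, cj]
      congr 1
      rw [Matrix.mul_assoc (Mi H * z), Mm_Mi, Matrix.mul_one]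
    rw [h1]
    exact hV _ hz _ hv
  have hVn0 : ∀ z ∈ hn H, (∀ v ∈ Vn, z *ᵥ v = 0) → z = 0 := by
    intro z hz h0
    have h1 := hV0 _ hz (fun v hv => by
      have h2 : Mm H *ᵥ v ∈ Vn := by
        change Mi H *ᵥ (Mm H *ᵥ v) ∈ V
        rw [Matrix.mulVec_mulVec, Mi_Mm, Matrix.one_mulVec]
        exact hv
      rw [cj, ← Matrix.mulVec_mulVec, ← Matrix.mulVec_mulVec, h0 _ h2, Matrix.mulVec_zero])
    rw [← cji_cj H z, h1, cji, Matrix.mul_zero, Matrix.zero_mul]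
  let L : Vn →ₗ[ℂ] V :=
    { toFun := fun v => ⟨Mi H *ᵥ (v : ι → ℂ), v.2⟩
      map_add' := fun a b => Subtype.ext (Matrix.mulVec_add _ _ _)
      map_smul' := fun c a => Subtype.ext (Matrix.mulVec_smul _ _ _) }
  have hL : Function.Injective L := by
    intro a b hab
    have h1 : Mi H *ᵥ (a : ι → ℂ) = Mi H *ᵥ (b : ι → ℂ) := congrArg Subtype.val hab
    have h2 := congrArg (fun w => Mm H *ᵥ w) h1
    simp only [Matrix.mulVec_mulVec, Mm_Mi, Matrix.one_mulVec] at h2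
    exact Subtype.ext h2
  obtain ⟨q, hq, q', hq', hqq, hc⟩ := exists_dec (isLA_hn H) (isGrp_Sn H) hVn hVn0
    (p := cji H p) (p' := cji H p') (by rw [← cji_mul, hpp, cji_one])
    (fun z hz => by
      rw [mem_hn, cj_mul, cj_mul, cj_cji, cj_cji]
      exact had _ hz)
    (fun z hz => by
      rw [mem_hn, cj_mul, cj_mul, cj_cji, cj_cji]
      exact had' _ hz)
    (by
      intro k
      obtain ⟨κ, _, _, Pi, h1, h2, h3⟩ := hPi k
      refine ⟨κ → ι, inferInstance, inferInstance, dkL κ,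
        (Matrix.mulVecLin (kp κ (Mm H))).compAlternatingMap (Pi.compLinearMap L), kpH κ,
        fun a b => dk_br a b, fun a => dk_conjTranspose a, fun a => kp_conjT a, ?_, ?_, ?_, ?_,
        ?_, ?_⟩
      · intro z hz v
        change dk κ z *ᵥ (kp κ (Mm H) *ᵥ Pi (fun i => L (v i))) =
          ∑ j, kp κ (Mm H) *ᵥ Pi (fun i => L (Function.update v j ⟨z *ᵥ (v j : ι → ℂ), hVn z hz _ (v j).2⟩ i))
        rw [Matrix.mulVec_mulVec, dk_cj_Mm, ← Matrix.mulVec_mulVec, h1 _ hz, ← Matrix.mulVec_sum]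
        congr 1
        refine Finset.sum_congr rfl fun j _ => ?_
        congr 1
        funext i
        by_cases hij : i = j
        · subst hij
          rw [Function.update_self, Function.update_self]
          apply Subtype.ext
          change cj H z *ᵥ (Mi H *ᵥ (v i : ι → ℂ)) = Mi H *ᵥ (z *ᵥ (v i : ι → ℂ))
          rw [Matrix.mulVec_mulVec, Matrix.mulVec_mulVec, cj]
          congr 1
          rw [Matrix.mul_assoc (Mi H * z), Mm_Mi, Matrix.mul_one]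
        · rw [Function.update_of_ne hij, Function.update_of_ne hij]
      · intro v hv h0
        change kp κ (Mm H) *ᵥ Pi (fun i => L (v i)) = 0 at h0
        have h4 := congrArg (fun w => kp κ (Mi H) *ᵥ w) h0
        simp only [Matrix.mulVec_mulVec, ← kp_mul, Mi_Mm, kp_one, Matrix.one_mulVec,
          Matrix.mulVec_zero] at h4
        exact h2 _ (hv.map' L (LinearMap.ker_eq_bot.2 hL)) h4
      · intro g g' z hgg
        exact kp_dk (mul_eq_one_comm.1 hgg) z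
      · intro U hU d hd W hW
        exact sqrt_mem U hU d hd W hW
      · intro q hq
        exact pres_fix H (hq (κ ⊕ κ))
      · refine pres_fix H ?_
        rw [cj_cji]
        exact h3)
  refine ⟨cj H q, hq, cj H q', hq', by rw [← cj_mul, hqq, cj_one], fun w hw => ?_⟩
  have h1 := hc (cji H w) (by rw [mem_hn, cj_cji]; exact hw)
  have h2 := congrArg (cj H) h1
  rw [cj_mul, cj_mul, cj_mul, cj_mul, cj_cji, cj_cji] at h2
  exact h2


end

variable {H : HData ι}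
  {A : Type} [Ring A] [Algebra ℂ A]

namespace AData

variable (D : AData H A)

/-- **Central isometries which fix the Hodge classes of bounded degree.** -/
theorem ci_SoS (htop : ∃ v : Fin (Module.finrank ℂ D.V) → D.V, pL D.L v ≠ 0)
    {z z' : Matrix ι ι ℂ} (hz : D.IsCI z) (hinv : z' * z = 1) {M : ℕ}
    (hfix : Fixes H z (Fin M ⊕ Fin M))
    (hM : ∀ (x : Matrix ι ι ℂ) (n : ℕ) (B : Bz (hn H) x (cji H z) D.Vn n), IsReg (hn H) x →
      (∀ i, B.ζ i ≠ 0) → ∀ s : Multiset (Fin n), B.tot s = 0 → B.zt s ≠ 1 →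
      (∀ t ≤ s, B.tot t ∈ QL (hn H) x → t = 0 ∨ t = s) → ∀ (i : Fin n) (p : Fin n → Prop)
      [DecidablePred p], (∀ j, p j → B.T j - B.T i ∈ QL (hn H) x) → (s.filter p).card ≤ M) :
    z ∈ So H := by
  obtain ⟨x, hxh, hxH, hxr⟩ := exists_regular (hn H)
  have hx : IsReg (hn H) x := ⟨hxh, hxH, hxr⟩
  have hZ := isZ_of hz.comm hz.commE
  obtain ⟨n, ⟨B⟩⟩ := exists_Bz (V := D.Vn) (isLA_hn H) hx (hZ.comm x hxh).symm hZ.normal
    (fun v hv => D.Vn_hn hxh hv) (fun v hv => D.Vn_Z hZ hv) (fun v hv => D.Vn_Z hZ.star hv)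
  have hζ : ∀ i, B.ζ i ≠ 0 := by
    intro i h0
    have h1 := B.ez i
    rw [h0, zero_smul] at h1
    have h2 : cji H z' *ᵥ (cji H z *ᵥ (B.v i : ι → ℂ)) = 0 := by rw [h1, Matrix.mulVec_zero]
    rw [Matrix.mulVec_mulVec, ← cji_mul, hinv, cji_one, Matrix.one_mulVec] at h2
    exact B.v_ne i h2
  have hs : ∀ s : Multiset (Fin n), B.tot s ∈ QL (hn H) x → B.zt s = 1 := fun s hs =>
    no_badS (D.toPD htop hz) (isLA_hn H) hx hZ.comm B hζ (hM x n B hx hζ)
      (pres_fix H (by rw [cj_cji]; exact hfix)) hs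
  intro κ _ _ a ha
  have h1 := fix_zero (D.toPD htop hz) B hs (κ := κ) (a := kp κ (Mm H) *ᵥ ca a)
    fun t ht _ => by
      rw [Matrix.mulVec_mulVec, dk_cj_Mm, ← Matrix.mulVec_mulVec, ht κ a ha, Matrix.mulVec_zero]
  rw [Matrix.mulVec_mulVec, kp_cj_Mm, cj_cji, ← Matrix.mulVec_mulVec] at h1
  have h2 := congrArg (fun w => kp κ (Mi H) *ᵥ w) h1
  simp only [Matrix.mulVec_mulVec, ← Matrix.mul_assoc, ← kp_mul, Mi_Mm, kp_one, Matrix.one_mul,
    Matrix.one_mulVec] at h2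
  exact h2

variable {x z : Matrix ι ι ℂ} {n : ℕ}

lemma qf_iso (hz : D.IsCI z) (u v : ι → ℂ) :
    qf H (cji H z *ᵥ u) (cji H z *ᵥ v) = qf H u v := by
  have hQQ : cQ H.Qr * cQ H.Qir = 1 := by rw [← cQ_mul, H.Qr_Qir, cQ_one]
  have hQQ' : cQ H.Qir * cQ H.Qr = 1 := mul_eq_one_comm.1 hQQ
  have h1 : z * (cQ H.Qir * zᵀ * cQ H.Qr) = 1 := by
    calc z * (cQ H.Qir * zᵀ * cQ H.Qr) = (z * cQ H.Qir * zᵀ) * cQ H.Qr := by
          simp only [Matrix.mul_assoc]
      _ = 1 := by rw [hz.iso, hQQ']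
  have h2 := mul_eq_one_comm.1 h1
  have h3 : zᵀ * (cQ H.Qr * z) = cQ H.Qr := by
    calc zᵀ * (cQ H.Qr * z) = (cQ H.Qr * cQ H.Qir) * (zᵀ * (cQ H.Qr * z)) := by
          rw [hQQ, Matrix.one_mul]
      _ = cQ H.Qr * (cQ H.Qir * zᵀ * cQ H.Qr * z) := by simp only [Matrix.mul_assoc]
      _ = _ := by rw [h2, Matrix.mul_one]
  rw [qf, qf, Mi_mulVec, Mi_mulVec, cj_cji]
  obtain ⟨a, ha⟩ : ∃ a, a = Mi H *ᵥ u := ⟨_, rfl⟩
  obtain ⟨b, hb⟩ : ∃ b, b = Mi H *ᵥ v := ⟨_, rfl⟩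
  rw [← ha, ← hb, ← Matrix.vecMul_transpose, ← Matrix.dotProduct_mulVec, Matrix.mulVec_mulVec,
    Matrix.mulVec_mulVec, Matrix.mul_assoc, h3]

/-- Opposite weights. -/
theorem zeta_pair (hz : D.IsCI z) (hP : cQ D.pr1 * cQ H.Qir = cQ H.Qir * (cQ D.pr1)ᵀ)
    (hx : IsReg (hn H) x) (B : Bz (hn H) x (cji H z) D.Vn n)
    (heq : ∀ j k, B.T j = B.T k → B.ζ j = B.ζ k) {i j : Fin n} (hij : B.T i + B.T j = 0) :
    B.ζ i * B.ζ j = 1 := by
  obtain ⟨k, hk⟩ := D.exists_pair hP B (B.v i).2 (B.v_ne i)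
  have h1 := D.pair_wt hx B hk
  have h2 : B.T j = B.T k := by
    rw [add_comm] at h1
    exact add_left_cancel (hij.trans h1.symm)
  have h3 := D.qf_iso hz (B.v k : ι → ℂ) (B.v i : ι → ℂ)
  rw [B.ez, B.ez, qf_smul_left, qf_smul_right, ← mul_assoc] at h3
  have h4 : B.ζ k * B.ζ i = 1 := mul_right_cancel₀ hk (h3.trans (one_mul _).symm)
  rw [heq j k h2, mul_comm]
  exact h4

/-- Bad irreducible multisets contain at most one element of a coset with double in the root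
lattice. -/
theorem count_one (hz : D.IsCI z) (hP : cQ D.pr1 * cQ H.Qir = cQ H.Qir * (cQ D.pr1)ᵀ)
    (hx : IsReg (hn H) x) (B : Bz (hn H) x (cji H z) D.Vn n)
    (heq : ∀ j k, B.T j = B.T k → B.ζ j = B.ζ k) {s : Multiset (Fin n)} (hs : B.tot s = 0)
    (hbad : B.zt s ≠ 1) (hirr : ∀ t ≤ s, B.tot t ∈ QL (hn H) x → t = 0 ∨ t = s) {i : Fin n}
    (h2 : 2 • B.T i ∈ QL (hn H) x) (p : Fin n → Prop) [DecidablePred p]
    (hp : ∀ j, p j → B.T j - B.T i ∈ QL (hn H) x) : (s.filter p).card ≤ 1 := by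
  classical
  by_contra hcon
  push Not at hcon
  obtain ⟨a, b, ht⟩ := two_le_card hcon
  have ha : p a := Multiset.of_mem_filter (Multiset.mem_of_le ht (by simp))
  have hb : p b := Multiset.of_mem_filter (Multiset.mem_of_le ht (by simp))
  have hts : ({a, b} : Multiset (Fin n)) ≤ s := ht.trans (Multiset.filter_le p s)
  have htot : B.tot {a, b} = B.T a + B.T b := by
    rw [Bz.tot, Multiset.insert_eq_cons, Multiset.map_cons, Multiset.sum_cons,
      Multiset.map_singleton, Multiset.sum_singleton]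
  have hzt : B.zt {a, b} = B.ζ a * B.ζ b := by
    rw [Bz.zt, Multiset.insert_eq_cons, Multiset.map_cons, Multiset.prod_cons,
      Multiset.map_singleton, Multiset.prod_singleton]
  rcases hirr _ hts (by
    rw [htot]
    have h1 := (QL _ x).add_mem ((QL _ x).add_mem (hp a ha) (hp b hb)) h2
    have h3 : B.T a - B.T i + (B.T b - B.T i) + 2 • B.T i = B.T a + B.T b := by
      rw [two_nsmul]; abel
    rwa [h3] at h1) with h3 | h3
  · have := congrArg Multiset.card h3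
    rw [Multiset.card_zero, Multiset.insert_eq_cons, Multiset.card_cons] at this
    omega
  · rw [← h3, htot] at hs
    rw [← h3, hzt] at hbad
    exact hbad (D.zeta_pair hz hP hx B heq hs)

/-- **Decomposition of matrices which normalise the Lie algebra.** -/
theorem exists_qzG (htop : ∃ v : Fin (Module.finrank ℂ D.V) → D.V, pL D.L v ≠ 0)
    {p p' : Matrix ι ι ℂ} (hpp : p * p' = 1) (had : ∀ z ∈ ho H, p * z * p' ∈ ho H)
    (had' : ∀ z ∈ ho H, p' * z * p ∈ ho H)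
    (hmul : ∀ x y, aop D.ε p (x * y) = aop D.ε p x * aop D.ε p y)
    (hp1 : Fixes H p Unit) (hp2 : Fixes H p (Unit ⊕ Unit)) :
    ∃ q ∈ So H, ∃ z, D.IsCI z ∧ p = q * z := by
  obtain ⟨q, hq, q', hq', hqq, hc⟩ := exists_decG H (V := D.V) (fun z hz v hv => D.V_ho hz hv)
    (fun z hz h0 => D.der_zero hz h0) hpp had had' (D.tests htop hp2)
  have hq2 : Fixes H q' (Unit ⊕ Unit) := hq' _
  have hq4 : Fixes H q' ((Unit ⊕ Unit) ⊕ (Unit ⊕ Unit)) := hq' _
  refine ⟨q, hq, q' * p, ⟨fun g hg => comm_GG hc hg, fun x hx => ?_, fun x y => ?_, ?_, ?_⟩, ?_⟩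
  · rw [Matrix.mul_assoc, hx.comm_fix hp2, ← Matrix.mul_assoc, hx.comm_fix hq2,
      Matrix.mul_assoc]
  · rw [aop_mul, hmul, D.mul_fix (hq' _) hq4, aop_mul, aop_mul]
  · rw [aop_mul, D.ucol_one (Fixes.ucol hp1), D.ucol_one (Fixes.ucol (hq' Unit))]
  · have h1 := fix_Q H hp2
    have h2 := fix_Q H hq2
    calc q' * p * cQ H.Qir * (q' * p)ᵀ = q' * (p * cQ H.Qir * pᵀ) * q'ᵀ := by
          rw [Matrix.transpose_mul]; simp only [Matrix.mul_assoc]
      _ = _ := by rw [h1, h2]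
  · rw [← Matrix.mul_assoc, hqq, Matrix.one_mul]

/-- **Self-adjoint centres: two factors are enough.** -/
theorem fix_two (htop : ∃ v : Fin (Module.finrank ℂ D.V) → D.V, pL D.L v ≠ 0)
    (hR : ∀ x, D.IsCE x → cQ x * cQ H.Qir = cQ H.Qir * (cQ x)ᵀ)
    {g g' : Matrix ι ι ℂ} (hgg : g * g' = 1) (had : ∀ z ∈ ho H, g * z * g' ∈ ho H)
    (had' : ∀ z ∈ ho H, g' * z * g ∈ ho H)
    (hmul : ∀ x y, aop D.ε g (x * y) = aop D.ε g x * aop D.ε g y)
    (hfix : ∀ (κ : Type) [Fintype κ] [DecidableEq κ], Fintype.card κ ≤ 2 →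
      Fixes H g κ) : g ∈ So H := by
  obtain ⟨q, hq, z, hz, hgq⟩ := D.exists_qzG htop hgg had had' hmul (hfix _ (by simp))
    (hfix _ (by simp))
  obtain ⟨q', hq', hqq⟩ := So_ex_inv hq
  have hzg : z = q' * g := by
    rw [hgq, ← Matrix.mul_assoc, mul_eq_one_comm.1 hqq, Matrix.one_mul]
  have hfixz : ∀ (κ : Type) [Fintype κ] [DecidableEq κ], Fintype.card κ ≤ 2 →
      Fixes H z κ := fun κ _ _ hκ a ha => by
    rw [hzg, kp_mul, ← Matrix.mulVec_mulVec, hfix κ hκ a ha, hq' κ a ha]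
  obtain ⟨z', -, hzz⟩ := Fixes.inv (hfixz (Unit ⊕ Unit) (by simp))
  have hf1 : Fixes H z (Fin 1 ⊕ Fin 1) := hfixz _ (by simp)
  have hP := hR _ D.pr1_CE
  have hZ := isZ_of hz.comm hz.commE
  have hzS : z ∈ So H := by
    refine D.ci_SoS htop hz (mul_eq_one_comm.1 hzz) (M := 1) hf1
      fun x n B hx hζ s hs hbad hirr i p _ hp => ?_
    refine D.count_one hz hP hx B (fun j k hjk => ?_) hs hbad hirr (D.two_mem hR hx B i) p hp
    exact zeta_eq (D.toPD htop hz) (isLA_hn H) hx hZ.comm B hζ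
      (pres_fix H (by rw [cj_cji]; exact hf1)) hjk
  rw [hgq]
  exact Submonoid.mul_mem _ hq hzS

end AData

end Pool.Agent.L0h10.RP
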