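import Pool.Agent.L0h10.RY.Prj0
import Pool.Agent.L0h10.RY.Two

/-!
# Self-adjoint centres: the square and the classes of codimension two on the fourth power
-/

set_option linter.unusedSectionVars false

namespace Pool.Agent.L0h10.RY

open Matrix Module
open Pool.Agent.N996.BP Pool.Agent.N996.FP
open Pool.Agent.L0h10.TS (ar2 ar2_inj ar2_surj dk_ar2 kp_ar2 dk_rei dk_empty dk_mulVec_apply GRep
  desc_sol desc_span dv dv_eq dv_map)
open Pool.Agent.L0h10.RQ Pool.Agent.L0h10.RU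

variable {ι : Type} [Fintype ι] [DecidableEq ι] {H : HData ι}
  {A : ∀ n : ℕ, Submodule ℚ ((Fin (n + 1) → ι) → ℚ)}
  {B : Type} [Ring B] [Algebra ℂ B] (E : AData H B)

/-- Matrices which fix the family are multiplicative. -/
lemma mul_FixA (hinv : arr (kp Unit H.Qir) ∈ AQ A (Unit ⊕ Unit))
    (hmu : arr (E.mu * kp (Unit ⊕ Unit) H.Qir) ∈ AQ A (Unit ⊕ (Unit ⊕ Unit)))
    {p p' : Matrix ι ι ℂ} (hp : FixA A p) (hpp : p * p' = 1) (x y : B) :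
    aop E.ε p (x * y) = aop E.ε p x * aop E.ε p y := by
  refine E.mul_of_itw ?_ x y
  have h3 := hp _ _ hmu
  rw [itw_arr, kp_arr] at h3
  have h4 := congrArg mat h3
  rw [mat_arr, mat_arr] at h4
  have h5 : kp (Unit ⊕ Unit) p * kp (Unit ⊕ Unit) (cQ H.Qir) * (kp (Unit ⊕ Unit) p)ᵀ =
      kp (Unit ⊕ Unit) (cQ H.Qir) := by
    rw [← kp_transpose, ← kp_mul, ← kp_mul, FixA_form hinv hp]
  have hpp' : p' * p = 1 := mul_eq_one_comm.1 hpp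
  have h6 : kp (Unit ⊕ Unit) (cQ H.Qir) * (kp (Unit ⊕ Unit) p)ᵀ =
      kp (Unit ⊕ Unit) p' * kp (Unit ⊕ Unit) (cQ H.Qir) := by
    calc kp (Unit ⊕ Unit) (cQ H.Qir) * (kp (Unit ⊕ Unit) p)ᵀ =
        (kp (Unit ⊕ Unit) p' * kp (Unit ⊕ Unit) p) * kp (Unit ⊕ Unit) (cQ H.Qir) *
          (kp (Unit ⊕ Unit) p)ᵀ := by rw [← kp_mul, hpp', kp_one, Matrix.one_mul]
      _ = kp (Unit ⊕ Unit) p' * (kp (Unit ⊕ Unit) p * kp (Unit ⊕ Unit) (cQ H.Qir) *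
          (kp (Unit ⊕ Unit) p)ᵀ) := by simp only [Matrix.mul_assoc]
      _ = _ := by rw [h5]
  have h7 : (kp Unit p * cQ E.mu * kp (Unit ⊕ Unit) p') * kp (Unit ⊕ Unit) (cQ H.Qir) =
      cQ E.mu * kp (Unit ⊕ Unit) (cQ H.Qir) := by
    rw [← h4, Matrix.mul_assoc (kp Unit p) (cQ E.mu * _), Matrix.mul_assoc (cQ E.mu), h6]
    simp only [Matrix.mul_assoc]
  have hQQ : kp (Unit ⊕ Unit) (cQ H.Qir) * kp (Unit ⊕ Unit) (cQ H.Qr) = 1 := by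
    rw [← kp_mul, Qi_Q, kp_one]
  have h8 : kp Unit p * cQ E.mu * kp (Unit ⊕ Unit) p' = cQ E.mu := by
    have h9 := congrArg (fun M => M * kp (Unit ⊕ Unit) (cQ H.Qr)) h7
    simp only [Matrix.mul_assoc, hQQ, Matrix.mul_one] at h9
    rw [Matrix.mul_assoc, h9]
  calc kp Unit p * cQ E.mu = kp Unit p * cQ E.mu * (kp (Unit ⊕ Unit) p' *
        kp (Unit ⊕ Unit) p) := by rw [← kp_mul, hpp', kp_one, Matrix.mul_one]
    _ = (kp Unit p * cQ E.mu * kp (Unit ⊕ Unit) p') * kp (Unit ⊕ Unit) p := by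
        simp only [Matrix.mul_assoc]
    _ = _ := by rw [h8]

variable {deg : ι → ℕ} {ℓ : ℕ} [hℓ : Fact ℓ.Prime] {Γ : Type*} [Group Γ] [TopologicalSpace Γ]
  {P : GRep deg ℚ_[ℓ] Γ} {j : ℚ_[ℓ] →+* ℂ}

namespace Crd5

variable [IsTopologicalGroup Γ] [CompactSpace Γ] (D : Crd5 deg j P H A)
include D

/-- **Self-adjoint centres.** -/
theorem all (hE : E.deg = deg)
    (hmu : arr (E.mu * kp (Unit ⊕ Unit) H.Qir) ∈ AQ A (Unit ⊕ (Unit ⊕ Unit)))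
    (htop : ∃ v : Fin (finrank ℂ E.V) → E.V, pL E.L v ≠ 0)
    (hadj : ∀ u, IsCE1 P u → u.map j * cQ H.Qir = cQ H.Qir * (u.map j)ᵀ) (n : ℕ) :
    ∀ c ∈ TT j P n, c ∈ AC A (Fin (n + 1)) := by
  have hLA : ∀ x ∈ LA A, x ∈ LT (TT j P) := fun x hx => D.LA_le1 E hE hmu hadj hx
  obtain ⟨Δ, hQ⟩ := D.form
  obtain ⟨w, DD⟩ := (D.dat0 hLA).exists_dat
  obtain ⟨AD, hAD⟩ : ∃ AD, AD = adata E DD hmu (fun y hy i k h => by
      rw [LT_TI] at hy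
      rw [hE] at h
      exact LT_deg D.hd hQ hy h) := ⟨_, rfl⟩
  have htop' : ∃ v : Fin (finrank ℂ AD.V) → AD.V, pL AD.L v ≠ 0 := by
    rw [hAD]
    exact htop
  have hpr : AD.pr1 = pd deg 1 := by
    rw [RP.AData.pr1, hAD]
    change (Matrix.diagonal fun i => if E.deg i = 1 then (1 : ℂ) else 0) = _
    rw [hE]
    rfl
  have hho : ∀ z, z ∈ RP.ho DD.hd ↔ z ∈ LA A := fun z => by
    rw [DD.mem_ho, LT_TI]
    exact ⟨fun h => D.sub h, fun h => hLA z h⟩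
  have hR : ∀ x, AD.IsCE x → RP.cQ x * RP.cQ (RP.HData.Qir DD.hd) =
      RP.cQ (RP.HData.Qir DD.hd) * (RP.cQ x)ᵀ := by
    rintro x ⟨⟨h1, h2, h3⟩, h4⟩
    rw [Crd2.Qir_eq, RP.cQ_eq]
    rw [hpr] at h2 h3
    refine D.adj_span1 hadj h2 h3 (fun z hz => DD.isHE_iff.1 h1 z (by rw [LT_TI]; exact hz))
      fun x' hx' h5 h6 => h4 x' ⟨DD.isHE_iff.2 fun z hz => hx' z (by rwa [LT_TI] at hz), ?_, ?_⟩
    · rw [hpr]; exact h5
    · rw [hpr]; exact h6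
  intro c hc
  refine AC_of_fix D.fam D.huni D.hinv fun g hg => ?_
  have h0 := FixA_form D.hinv hg
  obtain ⟨g', hg'⟩ : ∃ g', g' = cQ H.Qir * gᵀ * cQ H.Qr := ⟨_, rfl⟩
  have hgg : g * g' = 1 := by
    rw [hg']
    calc g * (cQ H.Qir * gᵀ * cQ H.Qr) = (g * cQ H.Qir * gᵀ) * cQ H.Qr := by
          simp only [Matrix.mul_assoc]
      _ = 1 := by rw [h0, Qi_Q]
  have hgg' : g' * g = 1 := mul_eq_one_comm.1 hgg
  have hgf' : FixA A g' := hg.inv hgg'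
  have hS : g ∈ RP.So DD.hd := by
    refine AD.fix_two htop' hR hgg (fun z hz => ?_) (fun z hz => ?_) (fun x y => ?_)
      fun κ _ _ hκ a ha => hg.ac (DD.BB_AC (N := 2) (fun n hn c hc => D.small n hn c
        (D.TI_le_TT_of hLA hc)) hκ ha)
    · rw [hho] at hz ⊢
      exact LA_conj hgf' hgg hz
    · rw [hho] at hz ⊢
      exact LA_conj hg hgg' hz
    · have h1 := mul_FixA E D.hinv hmu hg hgg x y
      rw [hAD]
      exact h1
  exact hS (Fin (n + 1)) c (DD.mem_BB.2 (TT_le_TI n hc))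

end Crd5

end Pool.Agent.L0h10.RY
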