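import Pool.Agent.L0h10.RY.All
import Pool.Agent.L0h10.RW.Core

/-!
# The square and the classes of codimension two on the fourth power decide
-/

set_option linter.unusedSectionVars false

open CategoryTheory AlgebraicGeometry TensorProduct Matrix

universe u v

namespace Pool.Agent.L0h10.RY

open Module
open Pool.Agent.H914 Pool.Agent.H914.VarClass Pool.Agent.H914.VarClass.Obj
  Pool.Agent.H914.WeilCohomology
open Pool.Agent.Y121.AHS
open Pool.Agent.Y133.Half (pw pfst psnd wb wb_zero wb_succ ClassPred PH)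
open Pool.Agent.Y121.AH (hodgePred)
open Pool.Agent.N996.BP Pool.Agent.N996.FP Pool.Agent.N996.BP.Geo
open Pool.Agent.N996.FP.Geo (form_gr)
open Pool.Agent.L0h10.TS (GaloisAction IsTate cross_one isDeg_mapL mapL_em mapL_smL mapL_add
  mapL_zero smL_one emL_add emL_smul emL_zero exists_cl ve emL_clw cL toRep isT_iff isDeg_ve
  wb_mem hp desc_span ar2 ar2_inj ar2_surj kp_ar2 sum_fin2 GRep isTp_iff vB vB_apply gal_vB mt
  isDeg_vB Q_gr Operators IsInfinitesimal KillsTate opOf opOf_zero inf_eq opOf_kill up_ve up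
  IsComb jj vB_inj vB_smul smL_eq ActsSemisimply ss_coord gal_ve ve_smul)
open Pool.Agent.L0h10.RQ Pool.Agent.L0h10.RT Pool.Agent.L0h10.RU

section Deg

variable {k : Type u} [Field k] {𝒱 : VarClass k} {ops : CycleOps 𝒱} {T : HodgeTheory ops}
  {X : 𝒱.Obj} {L : Type} [Field L] [CharZero L] [Algebra T.W.K L] {Γ : Type v} [Group Γ]
  [TopologicalSpace Γ] {G : GaloisAction T X Γ L} {Q : ClassPred T.W}

variable (G Q) in
/-- The Tate classes of codimension `j` on `X ^ (n + 1)` are combinations of classes with the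
property `Q`. -/
def TateC (n j : ℕ) : Prop := ∀ x : HL T.W L (pw X n), IsTate G n j x →
  x ∈ Submodule.span L {y : HL T.W L (pw X n) | ∃ c, Q.P (pw X n) j c ∧ emL T.W L c = y}

variable {ι : Type} [Fintype ι] [DecidableEq ι] {e : Basis ι T.W.K (T.W.H X)} {deg : ι → ℕ}
  (hdeg : ∀ i, e i ∈ T.W.gr X (deg i)) {j : L →+* ℂ}

/-- If the Tate classes of one codimension are combinations of classes with the property `Q`. -/
lemma TT_AAc {n p : ℕ} (hT : TateC G Q n p) {c : (Fin (n + 1) → ι) → ℂ}
    (hc : c ∈ TT j (toRep G e hdeg) n) (hs : ∀ w, c w ≠ 0 → ∑ i, deg (w i) = 2 * p) :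
    c ∈ Submodule.span ℂ (ca '' (AA Q e n : Set ((Fin (n + 1) → ι) → ℚ))) := by
  have h0 : ∀ c ∈ TT j (toRep G e hdeg) n, hpart deg (2 * p) c ∈
      Submodule.span ℂ (ca '' (AA Q e n : Set ((Fin (n + 1) → ι) → ℚ))) := by
    intro c hc
    induction hc using Submodule.span_induction with
    | mem x hx =>
      obtain ⟨b, ⟨q, hb⟩, rfl⟩ := hx
      by_cases hq : q = p
      · subst hq
        have h1 := hT _ ((isTp_iff G e hdeg).1 hb)
        have key : ∀ x ∈ Submodule.span L {y : HL T.W L (pw X n) | ∃ c, Q.P (pw X n) q c ∧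
            emL T.W L c = y}, cj e j n x ∈
            Submodule.span ℂ (ca '' (AA Q e n : Set ((Fin (n + 1) → ι) → ℚ))) := by
          intro x hx
          induction hx using Submodule.span_induction with
          | mem x hx =>
            obtain ⟨c, hc, rfl⟩ := hx
            obtain ⟨a, rfl⟩ := exists_clw (e := e) n c
            rw [cj_clw]
            exact Submodule.subset_span ⟨a, mem_AA.2 (ClassPred.sp_of hc), rfl⟩
          | zero => rw [cj_zero]; exact Submodule.zero_mem _
          | add x y _ _ hx hy => rw [cj_add]; exact Submodule.add_mem _ hx hy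
          | smul c x _ hx => rw [cj_smul]; exact Submodule.smul_mem _ _ hx
        have h2 := key _ h1
        rw [cj_ve] at h2
        have h3 : hpart deg (2 * q) (fun w => j (b w)) = fun w => j (b w) := by
          funext w
          rw [hpart]
          by_cases hw : ∑ k, deg (w k) = 2 * q
          · rw [if_pos hw]
          · rw [if_neg hw]
            have h4 : b w = 0 := by
              by_contra h5
              exact hw (hb.1 w h5)
            rw [h4, map_zero]
        rw [h3]
        exact h2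
      · have h3 : hpart deg (2 * p) (fun w => j (b w)) = 0 := by
          funext w
          rw [hpart, Pi.zero_apply]
          by_cases hw : ∑ k, deg (w k) = 2 * p
          · rw [if_pos hw]
            have h4 : b w = 0 := by
              by_contra h5
              have := hb.1 w h5
              omega
            rw [h4, map_zero]
          · rw [if_neg hw]
        rw [h3]
        exact Submodule.zero_mem _
    | zero =>
      have h1 : hpart deg (2 * p) (0 : (Fin (n + 1) → ι) → ℂ) = 0 := by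
        funext w; exact ite_self _
      rw [h1]
      exact Submodule.zero_mem _
    | add x y _ _ hx hy =>
      have h1 : hpart deg (2 * p) (x + y) = hpart deg (2 * p) x + hpart deg (2 * p) y := by
        funext w
        rw [Pi.add_apply, hpart, hpart, hpart]
        split_ifs <;> simp
      rw [h1]
      exact Submodule.add_mem _ hx hy
    | smul r x _ hx =>
      have h1 : hpart deg (2 * p) (r • x) = r • hpart deg (2 * p) x := by
        funext w
        rw [Pi.smul_apply, hpart, hpart]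
        split_ifs <;> simp
      rw [h1]
      exact Submodule.smul_mem _ r hx
  have h1 := h0 c hc
  have h2 : hpart deg (2 * p) c = c := by
    funext w
    rw [hpart]
    by_cases hw : ∑ k, deg (w k) = 2 * p
    · rw [if_pos hw]
    · rw [if_neg hw]
      by_contra h5
      exact hw (hs w (Ne.symm h5))
  rwa [h2] at h1

end Deg

variable {k : Type u} [Field k] {𝒱 : VarClass k} {ops : CycleOps 𝒱} {T : HodgeTheory ops}
  {X : 𝒱.Obj} {Γ : Type v} [Group Γ] [TopologicalSpace Γ]
  {ℓ : ℕ} [hℓ : Fact ℓ.Prime] [Algebra T.W.K ℚ_[ℓ]] {G : GaloisAction T X Γ ℚ_[ℓ]}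

theorem exists_crd5 {Q : ClassPred T.W} [IsTopologicalGroup Γ] [CompactSpace Γ] [Nontrivial (T.W.H X)]
    (j : ℚ_[ℓ] →+* ℂ)
    {ψ : Pool.Agent.N996.FP.RForm T.W X} (hψ : IsPHS (tauT (toH T)) (Fx (toH T) X) ψ X.dim)
    (hX : OfAbelianType T X)
    (hQH : ∀ n, Q.sp (pw X n) ≤ (hodgePred (toH T)).sp (pw X n))
    (hQT : QTate G Q) (hI : InvForm G (formL ℚ_[ℓ] ψ)) (hc : IsCts G) (hss : SSG G)
    (hT1 : TateQ G Q 1) (hT4 : TateC G Q 3 2) :
    ∃ (ι : Type) (_ : Fintype ι) (_ : DecidableEq ι) (e : Basis ι T.W.K (T.W.H X)) (deg : ι → ℕ)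
      (hdeg : ∀ i, e i ∈ T.W.gr X (deg i)) (H : HData ι) (r : ℂ),
      cQ H.Qr = r • (fM e ψ)ᵀ ∧ Crd5 deg j (toRep G e hdeg) H (AA Q e) ∧
      ∃ (B : Type) (_ : Ring B) (_ : Algebra ℂ B) (E : AData H B), E.deg = deg ∧
        arr (E.mu * kp (Unit ⊕ Unit) H.Qir) ∈ AQ (AA Q e) (Unit ⊕ (Unit ⊕ Unit)) ∧
        (∃ v : Fin (finrank ℂ E.V) → E.V, pL E.L v ≠ 0) ∧ finrank ℂ E.V = 2 * X.dim := by
  classical
  have hnt : Nontrivial ((toH T).W.H X) := inferInstanceAs (Nontrivial (T.W.H X))
  obtain ⟨ι, _, _, e, o, deg, heo, hdeg⟩ := exists_ubasis (toH T).W X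
  have ho : (1 : ℂ) ⊗ₜ[(toH T).W.K] e o ∈ Fx (toH T) X (0, 0) := by
    rw [heo]
    have h1 := (isHodge_one (T := toH T) (X := X)).2
    exact h1
  obtain ⟨H, hHo, hHw, hH, r, hr, hQ⟩ := hψ.exists_hdata2 e o ho
  have hd : Hom2 deg H := hom2_of (T := T) (e := e) hdeg hψ hQ
  obtain ⟨Δ, hInv⟩ := invQ_of (T := T) (e := e) (G := G) (j := j) hdeg hψ hQ hI
  have hsmall : ∀ n, n + 1 ≤ 2 → TateQ G Q n := fun n hn =>
    tateQ_mono hQT (show n ≤ 1 by omega) hT1
  have hdp : dp T.W X ∈ Q.sp (pw X 1) := dp_Q (T := T) (e := e) hdeg hQT hT1 j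
  -- the parities
  let p : ι → Fin 2 := fun j => ⟨deg j % 2, Nat.mod_lt _ two_pos⟩
  have hp : ∀ j, e j ∈ PH T.W X (p j : ℕ) := fun j =>
    PH.of' (by change deg j % 2 = (deg j % 2) % 2; omega) (hdeg j)
  obtain ⟨q, hq, hqQ⟩ := exists_qQ (T := T) (e := e) hdeg hQT hT1 hInv hd
  have hqE : q ∈ PH T.W (X.prod X) 0 := Q.sys.even hq
  have hfam : RFam H (AA (T := T) Q e) :=
    { perm := fun n σ a ha => arrc_perm (W := T.W) hp hdp n σ ha
      tens := fun n m a b ha hb => arrc_tens (W := T.W) e n m ha hb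
      contr := fun n a ha => arrc_contr (W := T.W) (fun j => ⟨_, hp j⟩) hq hqE hqQ n ha
      le := fun n a ha => (inv_cls (T := toH T) e hH n a).1 (inv_iff.2 (hQH n ha)) }
  have D : Crd5 deg j (toRep G e hdeg) H (AA Q e) :=
    { hd := hd
      par := par_of (T := toH T) (X := X) (e := e) hdeg hψ.int hH
      fam := hfam
      huni := by
        intro n e'
        obtain rfl : n = 0 := by
          have := Fintype.card_congr e'
          rw [Fintype.card_fin, Fintype.card_unit] at this
          omega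
        have h1 : rei e' (uni ℚ H.D.o Unit) = uni ℚ H.D.o (Fin (0 + 1)) := by
          funext w
          rw [rei, uni, uni]
          exact Equiv.prod_comp e' fun k => if w k = H.D.o then (1 : ℚ) else 0
        rw [h1]
        refine mem_AA.2 ?_
        have h2 : clw (W := T.W) e 0 (uni ℚ H.D.o (Fin (0 + 1))) = 1 :=
          (clw_uni (T := T) e H.D.o).trans (by rw [hHo]; exact heo)
        rw [h2]
        exact ClassPred.sp_of (one_P (T := T) (Q := Q) X)
      le := fun n a ha => AA_TT (T := T) hdeg hQT ha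
      form := ⟨Δ, hInv⟩
      cts := cts_coord hdeg hc
      ss := ss1_coord G hdeg hss
      small := by
        intro n hn c hc
        have h1 := TT_AA (T := T) hdeg (hsmall n hn) hc
        refine Submodule.span_mono (Set.image_mono fun a ha => ?_) h1
        exact hfam.mem_iff.2 ha
      four := by
        intro c hc hs
        have h1 := TT_AAc (T := T) hdeg hT4 hc fun w hw => by
          rw [Fin.sum_univ_four, hs w hw, hs w hw, hs w hw, hs w hw]
        refine Submodule.span_mono (Set.image_mono fun a ha => ?_) h1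
        exact hfam.mem_iff.2 ha }
  refine ⟨ι, inferInstance, inferInstance, e, deg, hdeg, H, r, hQ, D, ?_⟩
  exact exists_E (T := toH T) (X := X) (Q := Q) hψ hdeg (by rw [hHo]; exact heo) hH hX.1 hX.2 hfam
    D.hinv

/-- **Self-adjoint centres.** -/
theorem core5 [IsTopologicalGroup Γ] [CompactSpace Γ] {Ω : Type} [Field Ω] [Algebra T.W.K Ω]
    [Algebra ℚ_[ℓ] Ω] [IsScalarTower T.W.K ℚ_[ℓ] Ω] (θ : Ω ≃+* ℂ) {Q : ClassPred T.W}
    {ψ : Pool.Agent.N996.FP.RForm T.W X} (hψ : Pool.Agent.N996.FP.IsPolarisation T X ψ)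
    (hX : OfAbelianType T X)
    (hQH : ∀ n, Q.sp (pw X n) ≤ (hodgePred (toH T)).sp (pw X n))
    (hQT : QTate G Q) (hI : InvForm G (formL ℚ_[ℓ] ψ)) (hc : IsCts G) (hss : SSG G)
    (hadj : CentreAdj1 G (formL ℚ_[ℓ] ψ))
    (hT1 : TateQ G Q 1) (hT4 : TateC G Q 3 2) (n : ℕ) : TateQ G Q n := by
  rcases subsingleton_or_nontrivial (T.W.H X) with hs | hs
  · exact (sub_case hs).2 n
  obtain ⟨ι, _, _, e, deg, hdeg, H, r, hQ, D, B, _, _, E, hE, hmu, htop, -⟩ :=
    exists_crd5 (T := T) (G := G) (jj ℚ_[ℓ] θ) hψ.toBP.isPHS hX hQH hQT hI hc hss hT1 hT4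
  refine tateQ_of hdeg (j := jj ℚ_[ℓ] θ) ?_
  exact D.all E hE hmu htop (fun u hu => adj_coord1 G hdeg hψ.toBP.isPHS hQ hadj hu) n

end Pool.Agent.L0h10.RY
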