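import Pool.Agent.L0h10.RX.Conv
import Pool.Agent.L0h10.RY.Geo

/-!
# The square and the classes of codimension two on the fourth power decide: conversions
-/

open CategoryTheory AlgebraicGeometry
open scoped TensorProduct

universe u v

namespace Pool.Agent.L0h10.RY

open Pool.Agent.H914 Pool.Agent.H914.VarClass Pool.Agent.H914.VarClass.Obj
  Pool.Agent.H914.WeilCohomology
open Pool.Agent.Y121.AHS Pool.Agent.N996.FP
open Pool.Agent.Y133.Half (pw ClassPred)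
open Pool.Agent.Y121.AH (hodgePred)
open Pool.Agent.L0h10.TW Pool.Agent.L0h10.RT Pool.Agent.L0h10.RU Pool.Agent.L0h10.RX
open Pool.Agent.L0h10.RS (TateClassesAreHodge inv_iff zero_iff alg_iff tq_iff hq_iff th_iff
  alg_sp)
open Pool.Agent.L0h10.RV (cts_iff)

variable {k : Type u} [Field k] {𝒱 : VarClass k} {ops : CycleOps 𝒱}
  {T : HodgeTheory ops} {X : 𝒱.Obj} {Γ : Type v} [Group Γ] [TopologicalSpace Γ]
  {ℓ : ℕ} [Fact ℓ.Prime] [Algebra T.W.K ℚ_[ℓ]] (G : TW.GaloisAction (powers T X ℚ_[ℓ]) Γ)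

lemma tqc_iff (n j : ℕ) : TateC (toTS G) (algPred T) n j ↔
    ∀ x, TW.IsTate G n j x → IsComb ℚ_[ℓ] ((powers T X ℚ_[ℓ]).alg n j) x := by
  have h1 : {y : HL T.W ℚ_[ℓ] (pw X n) | ∃ c, (algPred T).P (pw X n) j c ∧
        emL T.W ℚ_[ℓ] c = y} = {y : HL T.W ℚ_[ℓ] (pw X n) | ∃ z, (pw X n).IsCyc j z ∧
        emL T.W ℚ_[ℓ] (val (T.W.cl (pw X n)) z) = y} := by
    ext y
    constructor
    · rintro ⟨_, ⟨z, hz, rfl⟩, rfl⟩
      exact ⟨z, hz, rfl⟩
    · rintro ⟨z, hz, rfl⟩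
      exact ⟨_, ⟨z, hz, rfl⟩, rfl⟩
  constructor
  · intro h x hx
    have h2 := h x hx
    rw [h1] at h2
    exact h2
  · intro h x hx
    have h2 := h x hx
    rw [h1]
    exact h2

/-- **The square and the classes of codimension two on the fourth power decide.** -/
theorem square [IsTopologicalGroup Γ] [CompactSpace Γ] (θ : AlgebraicClosure ℚ_[ℓ] ≃+* ℂ)
    {ψ : RForm T.W X} (hψ : IsPolarisation T X ψ) (hX : OfAbelianType T X)
    (h1 : AlgebraicClassesAreTate G) (h2 : IsInvariant G (formL ℚ_[ℓ] ψ))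
    (h3 : IsContinuous G) (h4 : IsSemisimple G)
    (hT : (CentreSelfAdjoint G (formL ℚ_[ℓ] ψ) ∧ TateConjecture G 1 ∧
        ∀ x, TW.IsTate G 3 2 x → IsComb ℚ_[ℓ] ((powers T X ℚ_[ℓ]).alg 3 2) x) ∨
      (SemisimpleMonodromy G ∧ TateConjecture G (max 4 (2 * X.dim) - 1)) ∨
        TateConjecture G (max 8 (4 * (max 1 (height G) * X.dim ^ 2) ^ X.dim) - 1))
    (n : ℕ) : TateConjecture G n ∧
      (HodgeClassesAreTate G → TW.HodgeConjecture (powers T X ℚ_[ℓ]) n) := by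
  rcases hT with ⟨h5, hT, h7⟩ | ⟨h5, hT⟩ | hT
  · have h8 := core5 (T := T) (X := X) (G := toTS G) (Q := algPred T) θ hψ hX alg_sp
      ((alg_iff G).2 h1) ((inv_iff G _).2 h2) ((cts_iff G).2 h3) (ss_of G h4)
      ((adj_iff G _).2 h5) ((tq_iff G _).2 hT) ((tqc_iff G 3 2).2 h7) n
    refine ⟨(tq_iff G n).1 h8, fun h6 => ?_⟩
    have h9 := TS.hodge_of_tate (T := T) (X := X) (toTS G) ((h1_iff G).2 h6)
      ((tc_iff G n).2 ((tq_iff G n).1 h8))
    rintro j _ ⟨c, hc, rfl⟩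
    obtain ⟨z, hz, rfl⟩ := h9 j c hc
    exact ⟨z, hz, rfl⟩
  · exact (fourth G θ hψ hX h1 h2 h3 h4 (Or.inr (Or.inl ⟨h5, rfl⟩))).1 hT n
  · exact (fourth G θ hψ hX h1 h2 h3 h4 (Or.inr (Or.inr rfl))).1 hT n

end Pool.Agent.L0h10.RY
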