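import Pool.Agent.L0h10.RY.F1

/-!
# Tate classes on the square and of codimension two on the fourth power: the Lie algebras
-/

set_option linter.unusedSectionVars false

namespace Pool.Agent.L0h10.RY

open Matrix Module
open Pool.Agent.N996.BP Pool.Agent.N996.FP
open Pool.Agent.L0h10.TS (ar2 ar2_inj ar2_surj dk_ar2 kp_ar2 dk_rei dk_empty dk_mulVec_apply GRep
  desc_sol desc_span dv dv_eq dv_map)
open Pool.Agent.L0h10.RQ Pool.Agent.L0h10.RU

variable {ι : Type} [Fintype ι] [DecidableEq ι] {deg : ι → ℕ} {H : HData ι}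
  {A : ∀ n : ℕ, Submodule ℚ ((Fin (n + 1) → ι) → ℚ)}
  {B : Type} [Ring B] [Algebra ℂ B] (E : AData H B)
  {ℓ : ℕ} [hℓ : Fact ℓ.Prime] {Γ : Type*} [Group Γ] [TopologicalSpace Γ]
  {P : GRep deg ℚ_[ℓ] Γ} {j : ℚ_[ℓ] →+* ℂ}

/-- The situation in coordinates. -/
structure Crd5 (deg : ι → ℕ) (j : ℚ_[ℓ] →+* ℂ) (P : GRep deg ℚ_[ℓ] Γ) (H : HData ι)
    (A : ∀ n : ℕ, Submodule ℚ ((Fin (n + 1) → ι) → ℚ)) : Prop where
  hd : Hom2 deg H
  par : H.l (-1) = Matrix.diagonal fun i => (-1 : ℂ) ^ deg i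
  fam : RFam H A
  huni : uni ℚ H.D.o Unit ∈ AQ A Unit
  le : ∀ n, ∀ a ∈ A n, ca a ∈ TT j P n
  form : ∃ Δ : OpenSubgroup Γ, InvQ j P H Δ
  cts : Cts P
  ss : SS1 P
  small : ∀ n, n + 1 ≤ 2 → ∀ c ∈ TT j P n, c ∈ AC A (Fin (n + 1))
  four : ∀ c ∈ TT j P 3, (∀ w, c w ≠ 0 → ∀ k, deg (w k) = 1) → c ∈ AC A (Fin (3 + 1))

lemma mulQi_inj {x y : Matrix ι ι ℂ} (h : x * cQ H.Qir = y * cQ H.Qir) : x = y := by
  have h1 := congrArg (fun z => z * cQ H.Qr) h
  beta_reduce at h1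
  rwa [Matrix.mul_assoc, Matrix.mul_assoc, Qi_Q, Matrix.mul_one, Matrix.mul_one] at h1

lemma AC_comm (hinv : arr (kp Unit H.Qir) ∈ AQ A (Unit ⊕ Unit)) {c : Matrix ι ι ℂ}
    (hc : ar2 (c * cQ H.Qir) ∈ AC A (Fin (1 + 1))) {z : Matrix ι ι ℂ} (hz : z ∈ LA A) :
    c * z = z * c := by
  have h1 := kill_AC hz hc
  rw [dk_ar2] at h1
  have h2 : z * (c * cQ H.Qir) + c * cQ H.Qir * zᵀ = 0 := ar2_inj h1
  have h3 : cQ H.Qir * zᵀ = -(z * cQ H.Qir) := by
    rw [eq_neg_iff_add_eq_zero, add_comm]; exact LA_skew hinv hz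
  rw [Matrix.mul_assoc c, h3, Matrix.mul_neg, add_neg_eq_zero] at h2
  apply mulQi_inj (H := H)
  rw [Matrix.mul_assoc, Matrix.mul_assoc, h2]

namespace Crd5

variable [IsTopologicalGroup Γ] [CompactSpace Γ] (D : Crd5 deg j P H A)
include D

lemma hinv : arr (kp Unit H.Qir) ∈ AQ A (Unit ⊕ Unit) := by
  obtain ⟨Δ, hQ⟩ := D.form
  have h1 := D.small 1 le_rfl _ (Qi_TT D.hd hQ)
  have h2 : ar2 (cQ H.Qir) = ca (ar2 H.Qir) := rfl
  rw [h2] at h1
  have h3 := D.fam.rei e2.symm (AQ_of_AC h1)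
  have h4 : rei e2.symm (ar2 H.Qir) = arr (kp Unit H.Qir) := by
    have h5 := rei_arr_Unit (kp Unit H.Qir) e2 rfl rfl
    have h6 : (Matrix.of fun i k => kp Unit H.Qir (fun _ => i) (fun _ => k)) = H.Qir := by
      ext i k
      rw [Matrix.of_apply, kp_apply, Fintype.prod_unique]
    rw [h6] at h5
    rw [← h5, rei_rei, Equiv.self_trans_symm]
    rfl
  rwa [h4] at h3

lemma sub {y : Matrix ι ι ℂ} (hy : y ∈ LT (TT j P)) : y ∈ LA A := LT_le_LA D.fam D.le hy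

lemma pd_AC (d : ℕ) : ar2 (pd deg d * cQ H.Qir) ∈ AC A (Fin (1 + 1)) := by
  obtain ⟨Δ, hQ⟩ := D.form
  exact D.small 1 le_rfl _ (pd_TT D.hd hQ d)

lemma LT_pd {z : Matrix ι ι ℂ} (hz : z ∈ LT (TT j P)) (d : ℕ) : z * pd deg d = pd deg d * z := by
  obtain ⟨Δ, hQ⟩ := D.form
  exact pd_comm (M := z) (deg := deg) (fun i k h => LT_deg D.hd hQ hz h) d

lemma LA_pd {z : Matrix ι ι ℂ} (hz : z ∈ LA A) (d : ℕ) : z * pd deg d = pd deg d * z :=
  (AC_comm D.hinv (D.pd_AC d) hz).symm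

lemma LT_E {a : Matrix ι ι ℚ_[ℓ]} (ha : IsE P a) {y : Matrix ι ι ℂ} (hy : y ∈ LT (TT j P)) :
    y * a.map j = a.map j * y := by
  obtain ⟨Δ, hQ⟩ := D.form
  obtain ⟨h1, Δ', h2⟩ := ha
  refine LT_comm D.hd hQ (comm_TT D.hd hQ (Δ' := Δ') (fun i k h => ?_) fun g hg => ?_) hy
  · rw [Matrix.map_apply, h1 i k h, map_zero]
  · rw [← map_mul_j, h2 g hg, map_mul_j]

/-- The commutant of the Lie algebra in degree one consists of combinations of Tate arrays. -/
lemma comm_TT1 {y : Matrix ι ι ℂ} (hp1 : pd deg 1 * y = y) (hp2 : y * pd deg 1 = y)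
    (hy : ∀ z ∈ LT (TT j P), z * y = y * z) : ar2 (y * cQ H.Qir) ∈ TT j P 1 := by
  refine TI_hom D.cts (p := 1) (fun z hz => ?_) fun w hw => ?_
  · have h2 : cQ H.Qir * zᵀ = -(z * cQ H.Qir) := by
      rw [eq_neg_iff_add_eq_zero, add_comm]; exact LA_skew D.hinv (D.sub hz)
    rw [dk_ar2, Matrix.mul_assoc y, h2, Matrix.mul_neg, ← Matrix.mul_assoc, ← Matrix.mul_assoc,
      hy z hz, add_neg_cancel]
    rfl
  · rw [ar2, Matrix.mul_apply] at hw
    obtain ⟨t, -, ht⟩ := Finset.exists_ne_zero_of_sum_ne_zero hw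
    have h1 : deg (w 0) = 1 ∧ deg t = 1 := by
      by_contra hcon
      apply left_ne_zero_of_mul ht
      refine supp_pd hp1 hp2 ?_
      by_contra h3
      push Not at h3
      exact hcon h3
    have h2 : deg t = deg (w 1) := by
      by_contra h3
      apply right_ne_zero_of_mul ht
      rw [cQ, Matrix.map_apply, D.hd.Qi _ _ h3, Rat.cast_zero]
    rw [Fin.sum_univ_two, h1.1, ← h2, h1.2]

/-- The centre of the commutant in degree one is defined over `L`. -/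
lemma cen_span1 {y : Matrix ι ι ℂ} (hp1 : pd deg 1 * y = y) (hp2 : y * pd deg 1 = y)
    (h1 : ∀ z ∈ LT (TT j P), z * y = y * z)
    (h2 : ∀ x', (∀ z ∈ LT (TT j P), z * x' = x' * z) → pd deg 1 * x' = x' →
      x' * pd deg 1 = x' → y * x' = x' * y) :
    y ∈ Submodule.span ℂ {x | ∃ u : Matrix ι ι ℚ_[ℓ], IsCE1 P u ∧ x = u.map j} := by
  obtain ⟨Δ, hQ⟩ := D.form
  have hpp := pd_sq deg 1
  -- the matrix commutes with the endomorphisms
  have hE : ∀ a : Matrix ι ι ℚ_[ℓ], IsE P a → y * a.map j = a.map j * y := by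
    intro a ha
    have hap : a.map j * pd deg 1 = pd deg 1 * a.map j :=
      pd_comm (M := a.map j) (deg := deg) (fun i k h => by
        rw [Matrix.map_apply, ha.1 i k h, map_zero]) 1
    have h3 := h2 (pd deg 1 * a.map j) (fun z hz => by
      rw [← Matrix.mul_assoc, D.LT_pd hz 1, Matrix.mul_assoc, D.LT_E ha hz, Matrix.mul_assoc])
      (by rw [← Matrix.mul_assoc, hpp])
      (by rw [← hap, Matrix.mul_assoc, hpp])
    rw [← Matrix.mul_assoc, hp2, ← hap, Matrix.mul_assoc, hp1] at h3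
    exact h3
  have hdeg : ∀ i k, deg i ≠ deg k → y i k = 0 := by
    intro i k hik
    by_cases h : deg i = 1
    · exact supp_pd hp1 hp2 (Or.inr fun h' => hik (h.trans h'.symm))
    · exact supp_pd hp1 hp2 (Or.inl h)
  -- it commutes with an open subgroup
  obtain ⟨Δ', hΔ'⟩ := TT_fix (D.comm_TT1 hp1 hp2 h1)
  have hR : ∀ g ∈ Δ ⊓ Δ', y * (P.R g).map j = (P.R g).map j * y := by
    intro g hg
    obtain ⟨hg1, hg2⟩ := OpenSubgroup.mem_inf.1 hg
    obtain ⟨s, hs⟩ := exists_sq (j (P.χ g))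
    have hs0 : s ≠ 0 := by
      rintro rfl
      apply chi_ne (P := P) g
      have h1 : j (P.χ g) = 0 := by rw [← hs]; ring
      exact (map_eq_zero j).1 h1
    have h3 := hΔ' g hg2 s hs
    rw [kp_ar2] at h3
    have h4 : Rs j P s g * (y * cQ H.Qir) * (Rs j P s g)ᵀ = y * cQ H.Qir := ar2_inj h3
    have h5 := Rs_Qi hQ hg1 hs
    have h6 := Ri_Rs hQ hg1 hs
    rw [Ri] at h6
    obtain ⟨R, hRR⟩ : ∃ R, R = Rs j P s g := ⟨_, rfl⟩
    rw [← hRR] at h4 h5 h6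
    have h7 : R * y = y * R := by
      calc R * y = R * y * (cQ H.Qir * Rᵀ * cQ H.Qr * R) := by rw [h6, Matrix.mul_one]
        _ = (R * (y * cQ H.Qir) * Rᵀ) * cQ H.Qr * R := by simp only [Matrix.mul_assoc]
        _ = y * (R * cQ H.Qir * Rᵀ) * cQ H.Qr * R := by rw [h4, h5]
        _ = y * R * (cQ H.Qir * Rᵀ * cQ H.Qr * R) := by simp only [Matrix.mul_assoc]
        _ = y * R := by rw [h6, Matrix.mul_one]
    rw [hRR, Rs] at h7
    have h8 : Matrix.diagonal (fun i => s ^ deg i) * y =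
        y * Matrix.diagonal (fun i => s ^ deg i) := by
      ext i k
      rw [Matrix.diagonal_mul, Matrix.mul_diagonal]
      by_cases h : deg i = deg k
      · rw [h, mul_comm]
      · rw [hdeg i k h, zero_mul, mul_zero]
    rw [← Matrix.mul_assoc y, ← h8, Matrix.mul_assoc, Matrix.mul_assoc] at h7
    have h9 : Matrix.diagonal (fun i => (s ^ deg i)⁻¹) *
        Matrix.diagonal (fun i => s ^ deg i) = (1 : Matrix ι ι ℂ) := by
      rw [Matrix.diagonal_mul_diagonal, ← Matrix.diagonal_one]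
      congr 1
      funext i
      exact inv_mul_cancel₀ (pow_ne_zero _ hs0)
    have h10 := congrArg (fun z => Matrix.diagonal (fun i => (s ^ deg i)⁻¹) * z) h7
    beta_reduce at h10
    rw [← Matrix.mul_assoc, h9, Matrix.one_mul, ← Matrix.mul_assoc, h9, Matrix.one_mul] at h10
    exact h10.symm
  have h3 := comm_desc (j := j) ({a | IsE P a} ∪ {a | ∃ g ∈ Δ ⊓ Δ', a = P.R g}) (y := y) (by
    rintro a (ha | ⟨g, hg, rfl⟩)
    · exact hE a ha
    · exact hR g hg)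
  -- the projection to degree one
  have h4 : ∀ x ∈ Submodule.span ℂ {x | ∃ u : Matrix ι ι ℚ_[ℓ],
      (∀ a ∈ ({a | IsE P a} ∪ {a | ∃ g ∈ Δ ⊓ Δ', a = P.R g} : Set (Matrix ι ι ℚ_[ℓ])),
        u * a = a * u) ∧ x = u.map j},
      pd deg 1 * x ∈ Submodule.span ℂ {x | ∃ u : Matrix ι ι ℚ_[ℓ], IsCE1 P u ∧ x = u.map j} := by
    intro x hx
    induction hx using Submodule.span_induction with
    | mem x hx =>
      obtain ⟨u, hu, rfl⟩ := hx
      have hudeg : ∀ i k, deg i ≠ deg k → u i k = 0 := by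
        intro i k hik
        have h5 := congrFun (congrFun (hu _ (Or.inl (Crd2.diag_E (P := P)
          fun n => if n = deg k then 1 else 0))) i) k
        rw [Matrix.mul_diagonal, Matrix.diagonal_mul, if_pos rfl, if_neg hik, mul_one,
          zero_mul] at h5
        exact h5
      have hup := pdL_comm (deg := deg) hudeg 1
      refine Submodule.subset_span ⟨pdL ℚ_[ℓ] deg 1 * u, ⟨⟨⟨fun i k hik => ?_, Δ ⊓ Δ',
        fun g hg => ?_⟩, fun i k hik => ?_⟩, fun a ha => ?_⟩, ?_⟩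
      · rw [pdL, Matrix.diagonal_mul, hudeg i k hik, mul_zero]
      · rw [Matrix.mul_assoc, hu _ (Or.inr ⟨g, hg, rfl⟩), ← Matrix.mul_assoc,
          ← pdL_comm (M := P.R g) (deg := deg) (fun i k h => P.deg' g i k h) 1, Matrix.mul_assoc]
      · rcases hik with h | h
        · rw [pdL, Matrix.diagonal_mul, if_neg h, zero_mul]
        · rw [← hup, pdL, Matrix.mul_diagonal, if_neg h, mul_zero]
      · have hap := pdL_comm (M := a) (deg := deg) ha.1.1 1
        rw [Matrix.mul_assoc, hu a (Or.inl ha.1), ← Matrix.mul_assoc, ← hap, Matrix.mul_assoc]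
      · rw [map_mul_j, pdL_map]
    | zero => rw [Matrix.mul_zero]; exact Submodule.zero_mem _
    | add a b _ _ ha hb => rw [Matrix.mul_add]; exact Submodule.add_mem _ ha hb
    | smul r a _ ha => rw [Matrix.mul_smul]; exact Submodule.smul_mem _ _ ha
  have h5 := h4 _ h3
  rwa [hp1] at h5

/-- Consequence. -/
lemma adj_span1 (hadj : ∀ u, IsCE1 P u → u.map j * cQ H.Qir = cQ H.Qir * (u.map j)ᵀ)
    {y : Matrix ι ι ℂ} (hp1 : pd deg 1 * y = y) (hp2 : y * pd deg 1 = y)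
    (h1 : ∀ z ∈ LT (TT j P), z * y = y * z)
    (h2 : ∀ x', (∀ z ∈ LT (TT j P), z * x' = x' * z) → pd deg 1 * x' = x' →
      x' * pd deg 1 = x' → y * x' = x' * y) : y * cQ H.Qir = cQ H.Qir * yᵀ := by
  have h3 := D.cen_span1 hp1 hp2 h1 h2
  clear hp1 hp2 h1 h2
  induction h3 using Submodule.span_induction with
  | mem x hx => obtain ⟨u, hu, rfl⟩ := hx; exact hadj u hu
  | zero => rw [Matrix.zero_mul, Matrix.transpose_zero, Matrix.mul_zero]
  | add a b _ _ ha hb => rw [Matrix.add_mul, ha, hb, Matrix.transpose_add, Matrix.mul_add]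
  | smul r a _ ha => rw [Matrix.smul_mul, ha, Matrix.transpose_smul, Matrix.mul_smul]

variable (hE : E.deg = deg)
  (hmu : arr (E.mu * kp (Unit ⊕ Unit) H.Qir) ∈ AQ A (Unit ⊕ (Unit ⊕ Unit)))

include hE hmu

/-- Elements of the Lie algebra of the family which kill the degree one part. -/
lemma zero_of_V {c : Matrix ι ι ℂ} (hc : c ∈ LA A) (h : c * pd deg 1 = 0) : c = 0 := by
  refine der_zero' E (der_LA E D.fam D.hinv hmu hc) fun v hv => ?_
  rw [aop_V E hE] at hv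
  rw [← hv, Matrix.mulVec_mulVec, h, Matrix.zero_mulVec]

/-- **The Lie algebra of the Tate arrays is an ideal.** -/
lemma ideal {x y : Matrix ι ι ℂ} (hx : x ∈ LA A) (hy : y ∈ LT (TT j P)) :
    br x y ∈ LT (TT j P) := by
  obtain ⟨Δ, hQ⟩ := D.form
  obtain ⟨F, hF1, hF2, hF3, hF4⟩ := exists_F1 (j := j) (H := H) D.ss D.hd hQ chi_ne
  have hF5 : arr (F * kp (Fin (1 + 1)) (cQ H.Qir)) ∈ AC A (Fin (1 + 1) ⊕ Fin (1 + 1)) := by
    have h5 := AC_rei D.fam (finSumFinEquiv (m := 1 + 1) (n := 1 + 1)).symm (D.four _ hF3 hF4)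
    rw [rei_rei, Equiv.self_trans_symm] at h5
    exact h5
  have hc := comm_dk D.fam D.hinv hF5 hx
  have h1 : dk (Fin (1 + 1)) x *ᵥ ar2 (y * pd deg 1 * cQ H.Qir) =
      ar2 (br x y * pd deg 1 * cQ H.Qir) := by
    rw [dk_ar2]
    congr 1
    have h2 : cQ H.Qir * xᵀ = -(x * cQ H.Qir) := by
      rw [eq_neg_iff_add_eq_zero, add_comm]; exact LA_skew D.hinv hx
    rw [Matrix.mul_assoc (y * pd deg 1), h2, Matrix.mul_neg, ← Matrix.mul_assoc,
      ← Matrix.mul_assoc (y * pd deg 1), Matrix.mul_assoc y, ← D.LA_pd hx 1, br, Matrix.sub_mul,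
      Matrix.sub_mul, sub_eq_add_neg]
    simp only [Matrix.mul_assoc]
  have h2 : F *ᵥ (dk (Fin (1 + 1)) x *ᵥ ar2 (y * pd deg 1 * cQ H.Qir)) =
      dk (Fin (1 + 1)) x *ᵥ ar2 (y * pd deg 1 * cQ H.Qir) := by
    rw [Matrix.mulVec_mulVec, ← hc, ← Matrix.mulVec_mulVec, hF2 y hy]
  obtain ⟨y', hy', h3⟩ := hF1 (dk (Fin (1 + 1)) x *ᵥ ar2 (y * pd deg 1 * cQ H.Qir))
  rw [h2, h1] at h3
  have h4 : br x y * pd deg 1 = y' * pd deg 1 := mulQi_inj (H := H) (ar2_inj h3)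
  have h5 : br x y - y' = 0 := by
    refine D.zero_of_V E hE hmu (Submodule.sub_mem _ ?_ (D.sub hy')) ?_
    · exact LA_br hx (D.sub hy)
    · rw [Matrix.sub_mul, h4, sub_self]
  rw [sub_eq_zero] at h5
  rw [h5]
  exact hy'

/-- An element of the algebra which is orthogonal to the ideal commutes with it. -/
lemma orth_comm {c : Matrix ι ι ℂ} (hc : c ∈ LA A) (ho : ∀ z ∈ LT (TT j P), hf H c z = 0)
    {z : Matrix ι ι ℂ} (hz : z ∈ LT (TT j P)) : c * z = z * c := by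
  have h1 : br c z ∈ LT (TT j P) := D.ideal E hE hmu hc hz
  have h2 : ∀ u ∈ LT (TT j P), hf H (br c z) u = 0 := by
    intro u hu
    have hb : br u (adj H z) ∈ LT (TT j P) := by
      have h3 := D.ideal E hE hmu (adj_LA D.fam (D.sub hz)) hu
      have h4 : br u (adj H z) = -(br (adj H z) u) := by rw [br, br, neg_sub]
      rw [h4]
      exact Submodule.neg_mem _ h3
    have h3 := ho _ hb
    rw [hf] at h3 ⊢
    have h4 : (nz H (br u (adj H z)))ᴴ = nz H z * (nz H u)ᴴ - (nz H u)ᴴ * nz H z := by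
      rw [br, nz_sub, nz_mul, nz_mul, Matrix.conjTranspose_sub, Matrix.conjTranspose_mul,
        Matrix.conjTranspose_mul, ← nz_adj D.hinv (D.sub hz),
        Matrix.conjTranspose_conjTranspose]
    rw [h4, Matrix.mul_sub, Matrix.trace_sub, sub_eq_zero] at h3
    rw [br, nz_sub, nz_mul, nz_mul, Matrix.sub_mul, Matrix.trace_sub, sub_eq_zero,
      Matrix.mul_assoc]
    rw [h3, ← Matrix.mul_assoc, Matrix.trace_mul_comm (nz H c * (nz H u)ᴴ), Matrix.mul_assoc]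
  have h3 := hf_pos (h2 _ h1)
  rw [br, sub_eq_zero] at h3
  exact h3

/-- If the centre is self-adjoint, then the Lie algebras coincide. -/
theorem LA_le1 (hadj : ∀ u, IsCE1 P u → u.map j * cQ H.Qir = cQ H.Qir * (u.map j)ᵀ)
    {x : Matrix ι ι ℂ} (hx : x ∈ LA A) : x ∈ LT (TT j P) := by
  obtain ⟨y', hy', hort⟩ := exists_dec (H := H) (LT (TT j P)) x
  obtain ⟨c, hcdef⟩ : ∃ c, c = x - y' := ⟨_, rfl⟩
  rw [← hcdef] at hort
  have hcA : c ∈ LA A := by
    rw [hcdef]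
    exact Submodule.sub_mem _ hx (D.sub hy')
  have hcT : ∀ z ∈ LT (TT j P), c * z = z * c := fun z hz => D.orth_comm E hE hmu hcA hort hz
  have hcp := D.LA_pd hcA 1
  have hpp := pd_sq deg 1
  obtain ⟨Δ, hQ⟩ := D.form
  have hQp : cQ H.Qir * pd deg 1 = pd deg 1 * cQ H.Qir :=
    pd_comm (M := cQ H.Qir) (deg := deg) (fun i k h => by
      rw [cQ, Matrix.map_apply, D.hd.Qi i k h, Rat.cast_zero]) 1
  have h2 : (c * pd deg 1) * cQ H.Qir = cQ H.Qir * (c * pd deg 1)ᵀ := by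
    refine D.adj_span1 hadj ?_ ?_ (fun z hz => ?_) fun x' hx' h3 h4 => ?_
    · rw [hcp, ← Matrix.mul_assoc, hpp]
    · rw [Matrix.mul_assoc, hpp]
    · rw [← Matrix.mul_assoc, ← hcT z hz, Matrix.mul_assoc, D.LT_pd hz 1, Matrix.mul_assoc]
    · have h5 : x' * c = c * x' :=
        AC_comm D.hinv (D.small 1 le_rfl _ (D.comm_TT1 h3 h4 hx')) hcA
      rw [Matrix.mul_assoc, h3, hcp, ← Matrix.mul_assoc, h4, h5]
  have h3 := LA_skew D.hinv hcA
  have h4 : (c * pd deg 1) * cQ H.Qir = -(cQ H.Qir * (c * pd deg 1)ᵀ) := by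
    have h5 : cQ H.Qir * cᵀ = -(c * cQ H.Qir) := by
      rw [eq_neg_iff_add_eq_zero, add_comm]; exact h3
    rw [hcp, Matrix.transpose_mul, pd_tr, ← Matrix.mul_assoc, h5, Matrix.neg_mul, neg_neg,
      Matrix.mul_assoc c, hQp, ← Matrix.mul_assoc, hcp]
  have h5 : (c * pd deg 1) * cQ H.Qir = 0 := by
    rw [← h2, eq_neg_iff_add_eq_zero, ← two_smul ℂ] at h4
    exact (smul_eq_zero.1 h4).resolve_left two_ne_zero
  have h6 : c * pd deg 1 = 0 := mulQi_inj (H := H) (by rw [h5, Matrix.zero_mul])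
  have h7 := D.zero_of_V E hE hmu hcA h6
  rw [hcdef, sub_eq_zero] at h7
  rw [h7]
  exact hy'

omit hE hmu in
/-- Then all invariants are combinations of Tate arrays. -/
theorem TI_le_TT_of (hLA : ∀ x ∈ LA A, x ∈ LT (TT j P)) {n : ℕ} {c : (Fin (n + 1) → ι) → ℂ}
    (hc : c ∈ TI j P n) : c ∈ TT j P n := by
  obtain ⟨Δ, hQ⟩ := D.form
  refine TI_even D.cts D.hd hQ hc fun d hd => ?_
  have hcd := TI_hpart D.hd hQ hc d
  have h1 := fix_l (H := H) (hcd _ (hLA _ (Ng_LA D.fam))) (t := -1)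
    (neg_ne_zero.2 one_ne_zero)
  rw [D.par, kp_par (d := d) _ _ (fun w hw => hpart_supp w hw),
    (Nat.not_even_iff_odd.1 hd).neg_one_pow, neg_smul, one_smul] at h1
  exact self_eq_neg.1 h1.symm

end Crd5

end Pool.Agent.L0h10.RY
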