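import Pool.Agent.L0h10.RY.Rad1

/-!
# The projector to the degree one part is a combination of Tate arrays
-/

set_option linter.unusedSectionVars false

namespace Pool.Agent.L0h10.RY

open Matrix Module
open Pool.Agent.N996.BP Pool.Agent.N996.FP
open Pool.Agent.L0h10.TS (ar2 ar2_inj ar2_surj dk_ar2 kp_ar2 dk_rei dk_empty dk_mulVec_apply GRep
  desc_sol desc_span dv dv_eq dv_map)
open Pool.Agent.L0h10.RQ Pool.Agent.L0h10.RU

variable {ι : Type} [Fintype ι] [DecidableEq ι] {deg : ι → ℕ} {L : Type} [Field L] [CharZero L]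
  {j : L →+* ℂ} {Γ : Type*} [Group Γ] [TopologicalSpace Γ] {P : GRep deg L Γ}
  {H : HData ι} {A : ∀ n : ℕ, Submodule ℚ ((Fin (n + 1) → ι) → ℚ)}

variable (j P) in
/-- The complexified Lie algebra on the degree one part. -/
def LT1 : Submodule ℂ (Matrix ι ι ℂ) := (LT (TT j P)).map (LinearMap.mulRight ℂ (pd deg 1))

lemma mem_LT1 {y : Matrix ι ι ℂ} : y ∈ LT1 j P ↔ ∃ z ∈ LT (TT j P), z * pd deg 1 = y := Iff.rfl

lemma g1_LT1 {u : Matrix ι ι L} (hu : u ∈ g1 j P) : u.map j ∈ LT1 j P := by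
  obtain ⟨x, hx, rfl⟩ := mem_g1.1 hu
  exact mem_LT1.2 ⟨x.map j, hx, by rw [map_mul_j, pdL_mapL]⟩

/-- The extended projector has values in the Lie algebra. -/
lemma exC_mem1 {f : Matrix ι ι L →ₗ[L] Matrix ι ι L} (hf : ∀ x, f x ∈ g1 j P)
    (x : Matrix ι ι ℂ) : exC j f x ∈ LT1 j P := by
  rw [exC_apply]
  refine Submodule.sum_mem _ fun a _ => Submodule.sum_mem _ fun b _ =>
    Submodule.smul_mem _ _ ?_
  exact g1_LT1 (hf _)

lemma exC_id1 {f : Matrix ι ι L →ₗ[L] Matrix ι ι L} (hf : ∀ x ∈ g1 j P, f x = x)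
    {x : Matrix ι ι ℂ} (hx : x ∈ LT1 j P) : exC j f x = x := by
  obtain ⟨z, hz, rfl⟩ := mem_LT1.1 hx
  have h1 := LT_span hz
  clear hx hz
  induction h1 using Submodule.span_induction with
  | mem y hy =>
    obtain ⟨u, hu, rfl⟩ := hy
    rw [← pdL_mapL deg 1 j, ← map_mul_j, exC_map, hf _ (mem_g1.2 ⟨u, hu, rfl⟩)]
  | zero => rw [Matrix.zero_mul, map_zero]
  | add a b _ _ ha hb => rw [Matrix.add_mul, map_add, ha, hb]
  | smul r a _ ha => rw [Matrix.smul_mul, map_smul, ha]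

lemma exC_cmp {f : Matrix ι ι L →ₗ[L] Matrix ι ι L}
    (hf : ∀ x, f x = f (pdL L deg 1 * (x * pdL L deg 1))) (x : Matrix ι ι ℂ) :
    exC j f x = exC j f (pd deg 1 * (x * pd deg 1)) := by
  have h1 : exC j f = exC j f ∘ₗ (LinearMap.mulLeft ℂ (pd deg 1) ∘ₗ
      LinearMap.mulRight ℂ (pd deg 1)) := by
    refine ext_L (j := j) fun x => ?_
    change exC j f (x.map j) = exC j f (pd deg 1 * (x.map j * pd deg 1))
    rw [← pdL_mapL deg 1 j, ← map_mul_j, ← map_mul_j, exC_map, exC_map, hf]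
  exact LinearMap.congr_fun h1 x

section

variable (hd : Hom2 deg H) {Δ : OpenSubgroup Γ} (hQ : InvQ j P H Δ)
include hd hQ

lemma LT_pd' {z : Matrix ι ι ℂ} (hz : z ∈ LT (TT j P)) : z * pd deg 1 = pd deg 1 * z :=
  pd_comm (M := z) (deg := deg) (fun i k h => LT_deg hd hQ hz h) 1

/-- The support. -/
lemma LT1_supp {y : Matrix ι ι ℂ} (hy : y ∈ LT1 j P) {i k : ι} (h : y i k ≠ 0) :
    deg i = 1 ∧ deg k = 1 := by
  obtain ⟨z, hz, rfl⟩ := mem_LT1.1 hy
  constructor
  · by_contra h1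
    apply h
    rw [LT_pd' hd hQ hz, pd, Matrix.diagonal_mul, if_neg h1, zero_mul]
  · by_contra h1
    apply h
    rw [pd, Matrix.mul_diagonal, if_neg h1, mul_zero]

lemma LT1_deg {y : Matrix ι ι ℂ} (hy : y ∈ LT1 j P) {i k : ι} (h : deg i ≠ deg k) :
    y i k = 0 := by
  by_contra h1
  obtain ⟨h2, h3⟩ := LT1_supp hd hQ hy h1
  exact h (h2.trans h3.symm)

end

/-- **The projector is a combination of Tate arrays.** -/
theorem exists_F1 [IsTopologicalGroup Γ] (hS : SS1 P) (hd : Hom2 deg H) {Δ : OpenSubgroup Γ}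
    (hQ : InvQ j P H Δ) (hχ : ∀ g, P.χ g ≠ 0) :
    ∃ F : Matrix (Fin (1 + 1) → ι) (Fin (1 + 1) → ι) ℂ,
      (∀ v, ∃ y ∈ LT (TT j P), F *ᵥ v = ar2 (y * pd deg 1 * cQ H.Qir)) ∧
      (∀ y ∈ LT (TT j P), F *ᵥ ar2 (y * pd deg 1 * cQ H.Qir) = ar2 (y * pd deg 1 * cQ H.Qir)) ∧
      rei finSumFinEquiv (arr (F * kp (Fin (1 + 1)) (cQ H.Qir))) ∈ TT j P 3 ∧
      ∀ w, rei finSumFinEquiv (arr (F * kp (Fin (1 + 1)) (cQ H.Qir))) w ≠ 0 →
        ∀ k, deg (w k) = 1 := by
  obtain ⟨f, hf1, hf2, hf3, hf4⟩ := exists_f1 hS hd hQ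
  obtain ⟨F, hF⟩ : ∃ F, F = LinearMap.toMatrix' (PhF deg H (exC j f)) := ⟨_, rfl⟩
  have hFv : ∀ v, F *ᵥ v = PhF deg H (exC j f) v := by
    intro v
    rw [hF, ← Matrix.toLin'_apply, Matrix.toLin'_toMatrix']
  have hFa : ∀ M : Matrix ι ι ℂ, F *ᵥ ar2 M =
      ar2 (exC j f (gr deg (M * cQ H.Qr)) * cQ H.Qir) := fun M => by
    rw [hFv, PhF_ar2]
  have hQd : ∀ i k, deg i ≠ deg k → cQ H.Qir i k = 0 := fun i k h => by
    rw [cQ, Matrix.map_apply, hd.Qi i k h, Rat.cast_zero]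
  have hQd' : ∀ i k, deg i ≠ deg k → cQ H.Qr i k = 0 := fun i k h => by
    rw [cQ, Matrix.map_apply, hd.Q i k h, Rat.cast_zero]
  have hs1 : ∀ v u : Fin (1 + 1) → ι, F v u ≠ 0 → deg (v 0) = 1 ∧ deg (v 1) = 1 := by
    intro v u hv
    have h1 : F v u = (F *ᵥ Pi.single u 1) v := by
      rw [Matrix.mulVec_single_one, Matrix.col_apply]
    obtain ⟨M, hM⟩ := surj_ar2 (Pi.single u (1 : ℂ))
    rw [h1, hM, hFa, ar2, Matrix.mul_apply] at hv
    obtain ⟨t, -, ht⟩ := Finset.exists_ne_zero_of_sum_ne_zero hv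
    obtain ⟨h2, h3⟩ := LT1_supp hd hQ (exC_mem1 hf1 _) (left_ne_zero_of_mul ht)
    refine ⟨h2, ?_⟩
    by_contra h4
    exact right_ne_zero_of_mul ht (hQd _ _ fun h5 => h4 (h5.symm.trans h3))
  have hs2 : ∀ v u : Fin (1 + 1) → ι, F v u ≠ 0 → deg (u 0) = 1 ∧ deg (u 1) = 1 := by
    intro v u hv
    by_contra hcon
    apply hv
    have h1 : F v u = (F *ᵥ Pi.single u 1) v := by
      rw [Matrix.mulVec_single_one, Matrix.col_apply]
    have h2 : (Pi.single u (1 : ℂ) : (Fin (1 + 1) → ι) → ℂ) =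
        ar2 (Matrix.single (u 0) (u 1) (1 : ℂ)) := by
      funext w
      rw [ar2, Matrix.single_apply]
      by_cases hw : w = u
      · subst hw
        rw [Pi.single_eq_same, if_pos ⟨rfl, rfl⟩]
      · rw [Pi.single_eq_of_ne hw, if_neg]
        rintro ⟨h3, h4⟩
        apply hw
        funext k
        fin_cases k
        · exact h3.symm
        · exact h4.symm
    have h3 : pd deg 1 * (gr deg (Matrix.single (u 0) (u 1) (1 : ℂ) * cQ H.Qr) * pd deg 1) =
        0 := by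
      ext i k
      rw [pd, Matrix.diagonal_mul, Matrix.mul_diagonal, Matrix.zero_apply]
      by_cases hi : deg i = 1
      · by_cases hk : deg k = 1
        · rw [if_pos hi, if_pos hk, one_mul, mul_one, gr, Matrix.of_apply, if_pos (hi.trans hk.symm),
            Matrix.mul_apply]
          refine Finset.sum_eq_zero fun t _ => ?_
          rw [Matrix.single_apply]
          by_cases h5 : u 0 = i ∧ u 1 = t
          · obtain ⟨rfl, rfl⟩ := h5
            rw [hQd' _ _ (fun h6 => hcon ⟨hi, h6.trans hk⟩), mul_zero]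
          · rw [if_neg h5, zero_mul]
        · rw [if_neg hk, mul_zero, mul_zero]
      · rw [if_neg hi, zero_mul]
    rw [h1, h2, hFa, exC_cmp hf4, h3, map_zero, Matrix.zero_mul]
    rfl
  have hsupp : ∀ w, rei finSumFinEquiv (arr (F * kp (Fin (1 + 1)) (cQ H.Qir))) w ≠ 0 →
      ∀ k, deg (w k) = 1 := by
    intro w hw
    rw [rei, arr, Matrix.mul_apply] at hw
    obtain ⟨u, -, hu⟩ := Finset.exists_ne_zero_of_sum_ne_zero hw
    obtain ⟨e0, e1⟩ := hs1 _ _ (left_ne_zero_of_mul hu)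
    obtain ⟨f0, f1⟩ := hs2 _ _ (left_ne_zero_of_mul hu)
    have h2 := right_ne_zero_of_mul hu
    rw [kp_apply, Fin.prod_univ_two] at h2
    have e2 : deg (u 0) = deg (w 2) := by
      by_contra h3
      exact left_ne_zero_of_mul h2 (hQd _ _ h3)
    have e3 : deg (u 1) = deg (w 3) := by
      by_contra h3
      exact right_ne_zero_of_mul h2 (hQd _ _ h3)
    intro k
    fin_cases k
    · exact e0
    · exact e1
    · exact e2.symm.trans f0
    · exact e3.symm.trans f1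
  refine ⟨F, fun v => ?_, fun y hy => ?_, ?_, hsupp⟩
  · obtain ⟨M, rfl⟩ := surj_ar2 v
    obtain ⟨z, hz, h1⟩ := mem_LT1.1 (exC_mem1 (j := j) (P := P) hf1 (gr deg (M * cQ H.Qr)))
    exact ⟨z, hz, by rw [hFa, h1]⟩
  · have hy1 : y * pd deg 1 ∈ LT1 j P := mem_LT1.2 ⟨y, hy, rfl⟩
    rw [hFa, Matrix.mul_assoc (y * pd deg 1), Qi_Q, Matrix.mul_one,
      gr_eq (x := y * pd deg 1) (fun i k h => LT1_deg hd hQ hy1 h), exC_id1 hf2 hy1]
  · refine mem_TT (Δ := Δ) (fun w hw => ?_) fun g hg => ?_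
    · have h1 := hsupp w hw
      rw [Fin.sum_univ_four, h1, h1, h1, h1]
      exact ⟨2, rfl⟩
    · obtain ⟨s, hs⟩ := exists_sq (j (P.χ g))
      refine ⟨s, hs, ?_⟩
      have hs0 : s ≠ 0 := by
        rintro rfl
        apply hχ g
        have h1 : j (P.χ g) = 0 := by rw [← hs]; ring
        exact (map_eq_zero j).1 h1
      -- the operator commutes with the action
      have hcomm : kp (Fin (1 + 1)) (Rs j P s g) * F = F * kp (Fin (1 + 1)) (Rs j P s g) := by
        apply Matrix.mulVec_injective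
        funext v
        obtain ⟨M, rfl⟩ := surj_ar2 v
        change (kp (Fin (1 + 1)) (Rs j P s g) * F) *ᵥ ar2 M =
          (F * kp (Fin (1 + 1)) (Rs j P s g)) *ᵥ ar2 M
        rw [← Matrix.mulVec_mulVec, ← Matrix.mulVec_mulVec, kp_ar2, hFa, hFa, kp_ar2]
        congr 1
        have hRR := Rs_Ri hQ hg hs
        -- the right hand side
        have h1 : Rs j P s g * M * (Rs j P s g)ᵀ * cQ H.Qr =
            Rs j P s g * (M * cQ H.Qr) * Ri j P H s g := by
          rw [Matrix.mul_assoc (Rs j P s g * M), RsT_Q hQ hg hs]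
          simp only [Matrix.mul_assoc]
        have hRid : ∀ i k, deg i ≠ deg k → Ri j P H s g i k = 0 := by
          have h2 : ∀ i k, deg i ≠ deg k → (cQ H.Qir * (Rs j P s g)ᵀ) i k = 0 := by
            intro i k h
            rw [Matrix.mul_apply]
            refine Finset.sum_eq_zero fun t _ => ?_
            by_cases h3 : deg i = deg t
            · rw [Matrix.transpose_apply, Rs_deg (fun h4 => h (h3.trans h4.symm)), mul_zero]
            · rw [hQd i t h3, zero_mul]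
          intro i k h
          rw [Ri, Matrix.mul_apply]
          refine Finset.sum_eq_zero fun t _ => ?_
          by_cases h3 : deg i = deg t
          · rw [hQd' t k (fun h4 => h (h3.trans h4)), mul_zero]
          · rw [h2 i t h3, zero_mul]
        rw [h1, gr_mul_right hRid, gr_mul_left (c := Rs j P s g) (fun i k h => Rs_deg h),
          conj_diag hs0 hRR (y := gr deg (M * cQ H.Qr)) (fun i k h => gr_supp _ h),
          exC_conj (j := j) (hf3 g),
          ← conj_diag hs0 hRR (y := exC j f (gr deg (M * cQ H.Qr)))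
            (fun i k h => LT1_deg hd hQ (exC_mem1 hf1 _) h)]
        -- the left hand side
        have h3 : cQ H.Qir * (Rs j P s g)ᵀ = Ri j P H s g * cQ H.Qir := by
          rw [Ri, Matrix.mul_assoc _ (cQ H.Qr), Q_Qi, Matrix.mul_one]
        rw [Matrix.mul_assoc _ _ (cQ H.Qir), ← h3]
        simp only [Matrix.mul_assoc]
      rw [kp_rei, kp_arr]
      congr 2
      have h4 : kp (Fin (1 + 1)) (Rs j P s g) * kp (Fin (1 + 1)) (cQ H.Qir) *
          (kp (Fin (1 + 1)) (Rs j P s g))ᵀ = kp (Fin (1 + 1)) (cQ H.Qir) := by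
        rw [← kp_transpose, ← kp_mul, ← kp_mul, Rs_Qi hQ hg hs]
      rw [← Matrix.mul_assoc, hcomm, Matrix.mul_assoc F, Matrix.mul_assoc F, h4]

end Pool.Agent.L0h10.RY
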