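import Pool.Agent.L0h10.RQ.Rep

/-!
# A trace criterion for nilpotency on a part of the space
-/

set_option linter.unusedSectionVars false

namespace Pool.Agent.L0h10.RY

open Matrix Module
open Pool.Agent.N996.BP Pool.Agent.N996.FP
open Pool.Agent.L0h10.RQ

variable {ι : Type} [Fintype ι] [DecidableEq ι]

/-- The trace of an idempotent matrix. -/
lemma idem_trace {P : Matrix ι ι ℂ} (hP : P * P = P) : ∃ r : ℕ, P.trace = r ∧ (r = 0 → P = 0) := by
  have h1 : IsIdempotentElem (Matrix.toLin' P) := by
    change Matrix.toLin' P * Matrix.toLin' P = Matrix.toLin' P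
    rw [Module.End.mul_eq_comp, ← Matrix.toLin'_mul, hP]
  have h2 := LinearMap.IsIdempotentElem.isProj_range _ h1
  refine ⟨finrank ℂ (LinearMap.range (Matrix.toLin' P)), ?_, fun h0 => ?_⟩
  · rw [← Matrix.trace_toLin'_eq]
    exact h2.trace
  · have h3 : LinearMap.range (Matrix.toLin' P) = ⊥ := Submodule.finrank_eq_zero.1 h0
    have h4 : Matrix.toLin' P = 0 := LinearMap.range_eq_bot.1 h3
    exact Matrix.toLin'.injective (by rw [h4, map_zero])

/-- The positivity of the trace. -/
lemma diag_idem {μ : ι → ℂ} {P : Matrix ι ι ℂ} (hP : P * P = P)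
    (hc : P * Matrix.diagonal μ = Matrix.diagonal μ * P)
    (h0 : (Matrix.diagonal (fun i => μ i * cjA (μ i)) * P).trace = 0) :
    Matrix.diagonal μ * P = 0 := by
  classical
  have hs : ∀ i k, P i k ≠ 0 → μ i = μ k := by
    intro i k h
    have h1 := congrFun (congrFun hc i) k
    rw [Matrix.mul_diagonal, Matrix.diagonal_mul, mul_comm] at h1
    exact (mul_right_cancel₀ h h1).symm
  let E : ℂ → Matrix ι ι ℂ := fun l => Matrix.diagonal fun i => if μ i = l then 1 else 0
  have hE : ∀ l i k, (E l * P) i k = if μ i = l then P i k else 0 := by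
    intro l i k
    simp only [E]
    rw [Matrix.diagonal_mul]
    split_ifs <;> simp
  have hEi : ∀ l, (E l * P) * (E l * P) = E l * P := by
    intro l
    have h1 : P * E l = E l * P := by
      ext i k
      rw [hE]
      simp only [E]
      rw [Matrix.mul_diagonal]
      by_cases h : P i k = 0
      · rw [h]; simp
      · rw [hs i k h]; split_ifs <;> simp
    have h2 : E l * E l = E l := by
      simp only [E]
      rw [Matrix.diagonal_mul_diagonal]
      congr 1
      funext i
      split_ifs <;> simp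
    calc (E l * P) * (E l * P) = E l * (P * E l) * P := by simp only [Matrix.mul_assoc]
      _ = (E l * E l) * (P * P) := by rw [h1]; simp only [Matrix.mul_assoc]
      _ = _ := by rw [h2, hP]
  choose r hr hr0 using fun l => idem_trace (hEi l)
  have hsum : ∀ f : ℂ → ℂ, Matrix.diagonal (fun i => f (μ i)) * P =
      ∑ l ∈ Finset.univ.image μ, f l • (E l * P) := by
    intro f
    ext i k
    rw [Matrix.sum_apply, Matrix.diagonal_mul, Finset.sum_eq_single (μ i)]
    · rw [Matrix.smul_apply, hE, if_pos rfl, smul_eq_mul]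
    · intro l _ hl
      rw [Matrix.smul_apply, hE, if_neg (Ne.symm hl), smul_zero]
    · intro h
      exact absurd (Finset.mem_image_of_mem μ (Finset.mem_univ i)) h
  have h1 := hsum fun l => l * cjA l
  rw [h1, Matrix.trace_sum] at h0
  have h2 : ∑ l ∈ Finset.univ.image μ, Complex.normSq l * (r l : ℝ) = 0 := by
    have h3 : ((∑ l ∈ Finset.univ.image μ, Complex.normSq l * (r l : ℝ) : ℝ) : ℂ) = 0 := by
      rw [← h0]
      push_cast
      refine Finset.sum_congr rfl fun l _ => ?_
      rw [Matrix.trace_smul, hr, cjA_apply, Complex.mul_conj, smul_eq_mul]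
    exact_mod_cast h3
  have h3 := (Finset.sum_eq_zero_iff_of_nonneg fun l _ =>
    mul_nonneg (Complex.normSq_nonneg l) (Nat.cast_nonneg (r l))).1 h2
  have h4 := hsum fun l => l
  beta_reduce at h4
  rw [h4]
  refine Finset.sum_eq_zero fun l hl => ?_
  rcases mul_eq_zero.1 (h3 l hl) with h5 | h5
  · rw [Complex.normSq_eq_zero.1 h5, zero_smul]
  · rw [hr0 l (by exact_mod_cast h5), smul_zero]

lemma conj_pow' {S S' : Matrix ι ι ℂ} (h : S' * S = 1) (x : Matrix ι ι ℂ) (m : ℕ) :
    (S * x * S') ^ (m + 1) = S * x ^ (m + 1) * S' := by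
  induction m with
  | zero => rw [zero_add, pow_one, pow_one]
  | succ m ih =>
    rw [pow_succ, ih]
    calc S * x ^ (m + 1) * S' * (S * x * S') = S * x ^ (m + 1) * (S' * S) * x * S' := by
          simp only [Matrix.mul_assoc]
      _ = _ := by
          rw [h, Matrix.mul_one, Matrix.mul_assoc S, ← pow_succ]

/-- **The trace criterion on a part of the space.** -/
theorem nil_part {g : Submodule ℂ (Matrix ι ι ℂ)} {p y : Matrix ι ι ℂ} (hp : p * p = p)
    (hg : ∀ z ∈ g, z * p = p * z) (hy : y ∈ g)
    (hrep : ∀ S S' ν μ, Jor y S S' ν μ → ∀ φ : ℂ →+ ℂ, rep S S' μ φ ∈ g)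
    (h0 : ∀ z ∈ g, (y * z * p).trace = 0) : IsNilpotent (y * p) := by
  obtain ⟨S, S', ν, μ, h⟩ := exists_jor y
  have hSS := h.inv'
  obtain ⟨P, hP⟩ : ∃ P, P = S' * p * S := ⟨_, rfl⟩
  have hPS : S * P * S' = p := by
    rw [hP]
    calc S * (S' * p * S) * S' = (S * S') * p * (S * S') := by simp only [Matrix.mul_assoc]
      _ = _ := by rw [hSS, Matrix.one_mul, Matrix.mul_one]
  have hPP : P * P = P := by
    rw [hP]
    calc S' * p * S * (S' * p * S) = S' * p * (S * S') * p * S := by simp only [Matrix.mul_assoc]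
      _ = S' * (p * p) * S := by rw [hSS, Matrix.mul_one]; simp only [Matrix.mul_assoc]
      _ = _ := by rw [hp]
  have hcS : ∀ m : Matrix ι ι ℂ, (S * m * S') * p = p * (S * m * S') → m * P = P * m := by
    intro m hm
    have h1 := congrArg (fun z => S' * z * S) hm
    beta_reduce at h1
    rw [hP]
    calc m * (S' * p * S) = (S' * S) * m * (S' * p * S) := by rw [h.inv, Matrix.one_mul]
      _ = S' * (S * m * S' * p) * S := by simp only [Matrix.mul_assoc]
      _ = S' * (p * (S * m * S')) * S := h1
      _ = (S' * p * S) * m * (S' * S) := by simp only [Matrix.mul_assoc]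
      _ = _ := by rw [h.inv, Matrix.mul_one]
  have hyS : y = S * (Matrix.diagonal μ + ν) * S' := by
    rw [← h.eq]
    calc y = (S * S') * y * (S * S') := by rw [hSS, Matrix.one_mul, Matrix.mul_one]
      _ = _ := by simp only [Matrix.mul_assoc]
  have hs : rep S S' μ (AddMonoidHom.id ℂ) ∈ g := hrep S S' ν μ h _
  have hz : rep S S' μ cjA ∈ g := hrep S S' ν μ h _
  have hd : Matrix.diagonal μ * P = P * Matrix.diagonal μ := hcS _ (hg _ hs)
  have hn : ν * P = P * ν := by
    have h1 := hcS (Matrix.diagonal μ + ν) (by rw [← hyS]; exact hg y hy)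
    rw [Matrix.add_mul, Matrix.mul_add, hd] at h1
    exact add_left_cancel h1
  have h1 := h0 _ hz
  have h2 : (y * rep S S' μ cjA * p).trace =
      (Matrix.diagonal (fun i => μ i * cjA (μ i)) * P).trace := by
    have e1 : y * rep S S' μ cjA * p =
        S * ((Matrix.diagonal μ + ν) * Matrix.diagonal (fun i => cjA (μ i)) * P) * S' := by
      rw [rep]
      conv_lhs => rw [hyS, ← hPS]
      calc S * (Matrix.diagonal μ + ν) * S' * (S * Matrix.diagonal (fun i => cjA (μ i)) * S') *
          (S * P * S') = S * (Matrix.diagonal μ + ν) * (S' * S) *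
            Matrix.diagonal (fun i => cjA (μ i)) * (S' * S) * P * S' := by
            simp only [Matrix.mul_assoc]
        _ = _ := by rw [h.inv, Matrix.mul_one, Matrix.mul_one]; simp only [Matrix.mul_assoc]
    have e2 : (ν * Matrix.diagonal (fun i => cjA (μ i)) * P).trace = 0 := by
      have h3 : Commute ν (Matrix.diagonal (fun i => cjA (μ i))) := diag_comm h.comm cjA
      have h4 : Commute ν (Matrix.diagonal (fun i => cjA (μ i)) * P) := h3.mul_right hn
      rw [Matrix.mul_assoc]
      exact (Matrix.isNilpotent_trace_of_isNilpotent (h4.isNilpotent_mul_right h.nil)).eq_zero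
    rw [e1, Matrix.trace_mul_comm, ← Matrix.mul_assoc, h.inv, Matrix.one_mul, Matrix.add_mul,
      Matrix.add_mul, Matrix.trace_add, e2, add_zero, Matrix.diagonal_mul_diagonal]
  rw [h2] at h1
  have h3 := diag_idem hPP hd.symm h1
  have h4 : y * p = S * (ν * P) * S' := by
    conv_lhs => rw [hyS, ← hPS]
    calc S * (Matrix.diagonal μ + ν) * S' * (S * P * S') =
        S * (Matrix.diagonal μ + ν) * (S' * S) * P * S' := by simp only [Matrix.mul_assoc]
      _ = S * ((Matrix.diagonal μ + ν) * P) * S' := by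
          rw [h.inv, Matrix.mul_one]; simp only [Matrix.mul_assoc]
      _ = _ := by rw [Matrix.add_mul, h3, zero_add]
  obtain ⟨m, hm⟩ := Commute.isNilpotent_mul_right hn h.nil
  refine ⟨m + 1, ?_⟩
  rw [h4, conj_pow' h.inv, pow_succ, hm, Matrix.zero_mul, Matrix.mul_zero, Matrix.zero_mul]

end Pool.Agent.L0h10.RY
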