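import Pool.Agent.L0h10.RY.Crd5
import Pool.Agent.L0h10.RU.Fix

/-!
# The projector to the Lie algebra of the family
-/

set_option linter.unusedSectionVars false

namespace Pool.Agent.L0h10.RY

open Matrix Module
open Pool.Agent.N996.BP Pool.Agent.N996.FP
open Pool.Agent.L0h10.TS (ar2 ar2_inj ar2_surj dk_ar2 kp_ar2 dk_rei dk_empty dk_mulVec_apply GRep
  desc_sol desc_span dv dv_eq dv_map)
open Pool.Agent.L0h10.RQ Pool.Agent.L0h10.RU

variable {ι : Type} [Fintype ι] [DecidableEq ι] {H : HData ι}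
  {A : ∀ n : ℕ, Submodule ℚ ((Fin (n + 1) → ι) → ℚ)}

variable (H) in
/-- The operator on arrays given by a linear map on matrices. -/
noncomputable def PhG (F : Matrix ι ι ℂ →ₗ[ℂ] Matrix ι ι ℂ) :
    ((Fin (1 + 1) → ι) → ℂ) →ₗ[ℂ] ((Fin (1 + 1) → ι) → ℂ) :=
  ar2L ∘ₗ LinearMap.mulRight ℂ (cQ H.Qir) ∘ₗ F ∘ₗ LinearMap.mulRight ℂ (cQ H.Qr) ∘ₗ mt2

lemma PhG_ar2 (F : Matrix ι ι ℂ →ₗ[ℂ] Matrix ι ι ℂ) (M : Matrix ι ι ℂ) :
    PhG H F (ar2 M) = ar2 (F (M * cQ H.Qr) * cQ H.Qir) := rfl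

/-- **The projector to the Lie algebra of the family.** -/
theorem exists_F0 (fam : RFam H A) (huni : uni ℚ H.D.o Unit ∈ AQ A Unit)
    (hinv : arr (kp Unit H.Qir) ∈ AQ A (Unit ⊕ Unit)) :
    ∃ F : Matrix (Fin (1 + 1) → ι) (Fin (1 + 1) → ι) ℂ,
      (∀ v, ∃ y ∈ LA A, F *ᵥ v = ar2 (y * cQ H.Qir)) ∧
      (∀ y ∈ LA A, F *ᵥ ar2 (y * cQ H.Qir) = ar2 (y * cQ H.Qir)) ∧
      arr (F * kp (Fin (1 + 1)) (cQ H.Qir)) ∈ AC A (Fin (1 + 1) ⊕ Fin (1 + 1)) := by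
  have hrefl : (trF : LinearMap.BilinForm ℂ (Matrix ι ι ℂ)).IsRefl := by
    intro x y h
    rw [trF_apply] at h ⊢
    rw [Matrix.trace_mul_comm, h]
  obtain ⟨U', hU'⟩ : ∃ U', U' = (trF : LinearMap.BilinForm ℂ (Matrix ι ι ℂ)).orthogonal (LA A) :=
    ⟨_, rfl⟩
  have hc : IsCompl (LA A) U' := by
    rw [hU', LinearMap.BilinForm.isCompl_orthogonal_iff_disjoint hrefl, Submodule.disjoint_def]
    intro x hx hx'
    have h2 : (adj H x * x).trace = 0 := hx' _ (adj_LA fam hx)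
    refine hf_pos (H := H) ?_
    rw [hf, nz_adj hinv hx, ← nz_mul, nz_trace, Matrix.trace_mul_comm, h2]
  let f : Matrix ι ι ℂ →ₗ[ℂ] Matrix ι ι ℂ := (LA A).subtype ∘ₗ (LA A).projectionOnto U' hc
  have hf0 : ∀ x, f x ∈ LA A := fun x => ((LA A).projectionOnto U' hc x).2
  have hf1 : ∀ x ∈ LA A, f x = x := by
    intro x hx
    change (((LA A).projectionOnto U' hc x : LA A) : Matrix ι ι ℂ) = x
    have := Submodule.projectionOnto_apply_left hc ⟨x, hx⟩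
    rw [this]
  have hf2 : ∀ x ∈ U', f x = 0 := by
    intro x hx
    change (((LA A).projectionOnto U' hc x : LA A) : Matrix ι ι ℂ) = 0
    have := Submodule.projectionOnto_apply_right hc ⟨x, hx⟩
    rw [this]
    rfl
  have hf3 : ∀ g g' : Matrix ι ι ℂ, FixA A g → g * g' = 1 → ∀ x,
      f (g * x * g') = g * f x * g' := by
    intro g g' hg hgg x
    have hgg' : g' * g = 1 := mul_eq_one_comm.1 hgg
    have hg' : FixA A g' := hg.inv hgg'
    have hLA : ∀ x ∈ LA A, g * x * g' ∈ LA A := fun x hx => LA_conj hg' hgg hx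
    have hLA' : ∀ x ∈ LA A, g' * x * g ∈ LA A := fun x hx => LA_conj hg hgg' hx
    have hU'g : ∀ x ∈ U', g * x * g' ∈ U' := by
      intro x hx
      rw [hU'] at hx ⊢
      intro y hy
      have h3 := hx _ (hLA' y hy)
      change ((g' * y * g) * x).trace = 0 at h3
      change (y * (g * x * g')).trace = 0
      rw [← h3]
      rw [← Matrix.mul_assoc, Matrix.trace_mul_comm]
      simp only [Matrix.mul_assoc]
    have hx : x ∈ LA A ⊔ U' := by rw [hc.sup_eq_top]; exact Submodule.mem_top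
    obtain ⟨a, ha, b, hb, rfl⟩ := Submodule.mem_sup.1 hx
    rw [Matrix.mul_add, Matrix.add_mul, map_add, hf1 _ (hLA a ha), hf2 _ (hU'g b hb),
      map_add, hf1 a ha, hf2 b hb, add_zero, add_zero]
  obtain ⟨F, hF⟩ : ∃ F, F = LinearMap.toMatrix' (PhG H f) := ⟨_, rfl⟩
  have hFa : ∀ M : Matrix ι ι ℂ, F *ᵥ ar2 M = ar2 (f (M * cQ H.Qr) * cQ H.Qir) := fun M => by
    rw [hF, ← Matrix.toLin'_apply, Matrix.toLin'_toMatrix', PhG_ar2]
  refine ⟨F, fun v => ?_, fun y hy => ?_, AC_of_fix fam huni hinv fun g hg => ?_⟩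
  · obtain ⟨M, rfl⟩ := surj_ar2 v
    exact ⟨_, hf0 _, hFa M⟩
  · rw [hFa, Matrix.mul_assoc, Qi_Q, Matrix.mul_one, hf1 y hy]
  · have h0 := FixA_form hinv hg
    obtain ⟨g', hg'⟩ : ∃ g', g' = cQ H.Qir * gᵀ * cQ H.Qr := ⟨_, rfl⟩
    have hgg : g * g' = 1 := by
      rw [hg']
      calc g * (cQ H.Qir * gᵀ * cQ H.Qr) = (g * cQ H.Qir * gᵀ) * cQ H.Qr := by
            simp only [Matrix.mul_assoc]
        _ = 1 := by rw [h0, Qi_Q]
    have hcomm : kp (Fin (1 + 1)) g * F = F * kp (Fin (1 + 1)) g := by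
      apply Matrix.mulVec_injective
      funext v
      obtain ⟨M, rfl⟩ := surj_ar2 v
      change (kp (Fin (1 + 1)) g * F) *ᵥ ar2 M = (F * kp (Fin (1 + 1)) g) *ᵥ ar2 M
      rw [← Matrix.mulVec_mulVec, ← Matrix.mulVec_mulVec, kp_ar2, hFa, hFa, kp_ar2]
      congr 1
      have h1 : g * M * gᵀ * cQ H.Qr = g * (M * cQ H.Qr) * g' := by
        rw [hg']
        calc g * M * gᵀ * cQ H.Qr = g * M * (cQ H.Qr * cQ H.Qir) * gᵀ * cQ H.Qr := by
              rw [Q_Qi, Matrix.mul_one]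
          _ = _ := by simp only [Matrix.mul_assoc]
      have h2 : g' * cQ H.Qir = cQ H.Qir * gᵀ := by
        rw [hg', Matrix.mul_assoc, Q_Qi, Matrix.mul_one]
      rw [h1, hf3 g g' hg hgg, Matrix.mul_assoc (g * _) g', h2]
      simp only [Matrix.mul_assoc]
    rw [kp_arr]
    congr 1
    have h4 : kp (Fin (1 + 1)) g * kp (Fin (1 + 1)) (cQ H.Qir) *
        (kp (Fin (1 + 1)) g)ᵀ = kp (Fin (1 + 1)) (cQ H.Qir) := by
      rw [← kp_transpose, ← kp_mul, ← kp_mul, h0]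
    rw [← Matrix.mul_assoc, hcomm, Matrix.mul_assoc F, Matrix.mul_assoc F, h4]

variable {B : Type} [Ring B] [Algebra ℂ B] (E : AData H B) {deg : ι → ℕ}
  {ℓ : ℕ} [hℓ : Fact ℓ.Prime] {Γ : Type*} [Group Γ] [TopologicalSpace Γ]
  {P : GRep deg ℚ_[ℓ] Γ} {j : ℚ_[ℓ] →+* ℂ}

namespace Crd5

variable [IsTopologicalGroup Γ] [CompactSpace Γ] (D : Crd5 deg j P H A)
include D

/-- The abstract situation. -/
theorem dat0 (hLA : ∀ x ∈ LA A, x ∈ LT (TT j P)) : Dat0 H A (TI j P) where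
  fam := D.fam
  huni := D.huni
  hinv := D.hinv
  le n a ha := TT_le_TI n (D.le n a ha)
  gen n c hc := fun y hy => hc y (by rw [LT_TI]; exact hy)
  two c hc := D.small 1 le_rfl c (D.TI_le_TT_of hLA hc)
  proj := by
    obtain ⟨F, h1, h2, h3⟩ := exists_F0 D.fam D.huni D.hinv
    rw [LT_TI]
    refine ⟨F, fun v => ?_, fun y hy => h2 y (D.sub hy), h3⟩
    obtain ⟨y, hy, h4⟩ := h1 v
    exact ⟨y, hLA y hy, h4⟩

end Crd5

end Pool.Agent.L0h10.RY
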