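import Pool.Agent.L0h10.RY.Nil
import Pool.Agent.L0h10.RW.Sem

/-!
# The trace form on the degree one part of the Lie algebra
-/

set_option linter.unusedSectionVars false

namespace Pool.Agent.L0h10.RY

open Matrix Module
open Pool.Agent.N996.BP Pool.Agent.N996.FP
open Pool.Agent.L0h10.TS (ar2 ar2_inj ar2_surj dk_ar2 kp_ar2 dk_rei dk_empty dk_mulVec_apply GRep
  desc_sol desc_span dv dv_eq dv_map)
open Pool.Agent.L0h10.RQ Pool.Agent.L0h10.RU

variable {ι : Type} [Fintype ι] [DecidableEq ι] {deg : ι → ℕ} {L : Type} [Field L] [CharZero L]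
  {j : L →+* ℂ} {Γ : Type*} [Group Γ] [TopologicalSpace Γ] {P : GRep deg L Γ}
  {H : HData ι} {A : ∀ n : ℕ, Submodule ℚ ((Fin (n + 1) → ι) → ℚ)}

variable (j P) in
/-- The Lie algebra on the degree one part. -/
def g1 : Submodule L (Matrix ι ι L) := (gL j P).map (LinearMap.mulRight L (pdL L deg 1))

lemma mem_g1 {u : Matrix ι ι L} : u ∈ g1 j P ↔ ∃ x ∈ gL j P, x * pdL L deg 1 = u := Iff.rfl

lemma pdL_mapL (deg : ι → ℕ) (d : ℕ) (j : L →+* ℂ) : (pdL L deg d).map j = pd deg d := by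
  ext a b
  rw [Matrix.map_apply, pdL, pd, Matrix.diagonal_apply, Matrix.diagonal_apply]
  split_ifs <;> simp

lemma RpdL (P : GRep deg L Γ) (g : Γ) : P.R g * pdL L deg 1 = pdL L deg 1 * P.R g :=
  pdL_comm (M := P.R g) (deg := deg) (fun i k h => P.deg' g i k h) 1

lemma g1_conj [IsTopologicalGroup Γ] {u : Matrix ι ι L} (hu : u ∈ g1 j P) (g : Γ) :
    P.R g * u * P.R g⁻¹ ∈ g1 j P := by
  obtain ⟨x, hx, rfl⟩ := mem_g1.1 hu
  refine mem_g1.2 ⟨P.R g * x * P.R g⁻¹, gL_conj hx g, ?_⟩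
  rw [Matrix.mul_assoc, RpdL]
  simp only [Matrix.mul_assoc]

section

variable (hd : Hom2 deg H) {Δ : OpenSubgroup Γ} (hQ : InvQ j P H Δ)
include hd hQ

lemma gL_pdL {x : Matrix ι ι L} (hx : x ∈ gL j P) : x * pdL L deg 1 = pdL L deg 1 * x :=
  pdL_comm (M := x) (deg := deg) (fun i k h => gL_deg hd hQ hx h) 1

lemma g1_left {u : Matrix ι ι L} (hu : u ∈ g1 j P) : pdL L deg 1 * u = u := by
  obtain ⟨x, hx, rfl⟩ := mem_g1.1 hu
  rw [← Matrix.mul_assoc, ← gL_pdL hd hQ hx, Matrix.mul_assoc, pdL_sq]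

omit hd hQ in
lemma g1_right {u : Matrix ι ι L} (hu : u ∈ g1 j P) : u * pdL L deg 1 = u := by
  obtain ⟨x, hx, rfl⟩ := mem_g1.1 hu
  rw [Matrix.mul_assoc, pdL_sq]

lemma g1_br {u v : Matrix ι ι L} (hu : u ∈ g1 j P) (hv : v ∈ g1 j P) :
    u * v - v * u ∈ g1 j P := by
  obtain ⟨x, hx, rfl⟩ := mem_g1.1 hu
  obtain ⟨y, hy, rfl⟩ := mem_g1.1 hv
  refine mem_g1.2 ⟨x * y - y * x, gL_br hx hy, ?_⟩
  have h1 : ∀ {a b : Matrix ι ι L}, b ∈ gL j P →
      a * pdL L deg 1 * (b * pdL L deg 1) = a * b * pdL L deg 1 := by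
    intro a b hb
    rw [gL_pdL hd hQ hb, Matrix.mul_assoc a, ← Matrix.mul_assoc (pdL L deg 1), pdL_sq,
      ← gL_pdL hd hQ hb, ← Matrix.mul_assoc]
  rw [h1 hy, h1 hx, Matrix.sub_mul]

end

variable (j P) in
/-- The radical of the trace form. -/
def rad1 : Submodule L (Matrix ι ι L) where
  carrier := {x | x ∈ g1 j P ∧ ∀ y ∈ g1 j P, (x * y).trace = 0}
  add_mem' {a b} ha hb := ⟨Submodule.add_mem _ ha.1 hb.1, fun y hy => by
    rw [Matrix.add_mul, Matrix.trace_add, ha.2 y hy, hb.2 y hy, add_zero]⟩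
  zero_mem' := ⟨Submodule.zero_mem _, fun y _ => by rw [Matrix.zero_mul, Matrix.trace_zero]⟩
  smul_mem' c a ha := ⟨Submodule.smul_mem _ _ ha.1, fun y hy => by
    rw [Matrix.smul_mul, Matrix.trace_smul, ha.2 y hy, smul_zero]⟩

lemma rad1_conj [IsTopologicalGroup Γ] {x : Matrix ι ι L} (hx : x ∈ rad1 j P) (g : Γ) :
    P.R g * x * P.R g⁻¹ ∈ rad1 j P := by
  refine ⟨g1_conj hx.1 g, fun z hz => ?_⟩
  have h1 : (P.R g * x * P.R g⁻¹ * z).trace = (x * (P.R g⁻¹ * z * P.R g)).trace := by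
    rw [Matrix.mul_assoc (P.R g * x), Matrix.mul_assoc (P.R g), Matrix.trace_mul_comm (P.R g)]
    simp only [Matrix.mul_assoc]
  rw [h1]
  have h2 := g1_conj hz g⁻¹
  rw [inv_inv] at h2
  exact hx.2 _ h2

section

variable (hd : Hom2 deg H) {Δ : OpenSubgroup Γ} (hQ : InvQ j P H Δ)
include hd hQ

lemma rad1_br {x y : Matrix ι ι L} (hx : x ∈ rad1 j P) (hy : y ∈ rad1 j P) :
    x * y - y * x ∈ rad1 j P := by
  refine ⟨g1_br hd hQ hx.1 hy.1, fun z hz => ?_⟩
  have h1 : ((x * y - y * x) * z).trace = (x * (y * z - z * y)).trace := by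
    rw [Matrix.sub_mul, Matrix.mul_sub, Matrix.trace_sub, Matrix.trace_sub, Matrix.mul_assoc,
      Matrix.mul_assoc, Matrix.trace_mul_comm y, Matrix.mul_assoc]
  rw [h1]
  exact hx.2 _ (g1_br hd hQ hy.1 hz)

/-- The elements of the radical are nilpotent. -/
lemma rad1_nil {u : Matrix ι ι L} (hu : u ∈ rad1 j P) : IsNilpotent u := by
  obtain ⟨x, hx, hxu⟩ := mem_g1.1 hu.1
  have hpp : pd deg 1 * pd deg 1 = (pd deg 1 : Matrix ι ι ℂ) := pd_sq deg 1
  have hcomm : ∀ z ∈ LT (TT j P), z * pd deg 1 = pd deg 1 * z := fun z hz =>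
    pd_comm (M := z) (deg := deg) (fun i k h => LT_deg hd hQ hz h) 1
  have h0 : ∀ z ∈ LT (TT j P), (x.map j * z * pd deg 1).trace = 0 := by
    intro z hz
    have h1 := LT_span hz
    clear hz
    induction h1 using Submodule.span_induction with
    | mem y hy =>
      obtain ⟨v, hv, rfl⟩ := hy
      have h4 : u * (v * pdL L deg 1) = x * v * pdL L deg 1 := by
        rw [← hxu, gL_pdL hd hQ hv, Matrix.mul_assoc x, ← Matrix.mul_assoc (pdL L deg 1), pdL_sq,
          ← gL_pdL hd hQ hv, ← Matrix.mul_assoc]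
      have h2 : x.map j * v.map j * pd deg 1 = (u * (v * pdL L deg 1)).map j := by
        rw [← pdL_mapL deg 1 j, ← map_mul_j, ← map_mul_j, h4]
      have h3 : ((u * (v * pdL L deg 1)).map j).trace = j ((u * (v * pdL L deg 1)).trace) := by
        rw [Matrix.trace, Matrix.trace, map_sum]
        rfl
      rw [h2, h3, hu.2 _ (mem_g1.2 ⟨v, hv, rfl⟩), map_zero]
    | zero => rw [Matrix.mul_zero, Matrix.zero_mul, Matrix.trace_zero]
    | add a b _ _ ha hb => rw [Matrix.mul_add, Matrix.add_mul, Matrix.trace_add, ha, hb, add_zero]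
    | smul r a _ ha => rw [Matrix.mul_smul, Matrix.smul_mul, Matrix.trace_smul, ha, smul_zero]
  obtain ⟨m, hm⟩ := nil_part hpp hcomm (y := x.map j) hx
    (fun S S' ν μ h φ n c hc => h.kill φ (hx n c hc)) h0
  refine ⟨m, map_inj_j (j := j) ?_⟩
  have h2 : ∀ m : ℕ, (u ^ m).map j = (u.map j) ^ m := by
    intro m
    induction m with
    | zero =>
      rw [pow_zero, pow_zero]
      exact Matrix.map_one _ (map_zero j) (map_one j)
    | succ m ih => rw [pow_succ, pow_succ, map_mul_j, ih]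
  have h3 : u.map j = x.map j * pd deg 1 := by
    rw [← hxu, map_mul_j, pdL_mapL]
  rw [h2, h3, hm]
  ext i k
  simp

end

/-- **The trace form is nondegenerate on the degree one part.** -/
theorem rad1_zero [IsTopologicalGroup Γ] (hS : SS1 P) (hd : Hom2 deg H) {Δ : OpenSubgroup Γ}
    (hQ : InvQ j P H Δ) {x : Matrix ι ι L} (hx : x ∈ rad1 j P) : x = 0 := by
  classical
  have hpp := pdL_sq (ι := ι) L deg 1
  have hxp : ∀ x ∈ rad1 j P, x * pdL L deg 1 = pdL L deg 1 * x := fun x hx => by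
    rw [g1_right hx.1, g1_left hd hQ hx.1]
  have hRp := RpdL P
  -- the invariants
  let V0 : Submodule L (ι → L) :=
    { carrier := {v | pdL L deg 1 *ᵥ v = v ∧ ∀ x ∈ rad1 j P, x *ᵥ v = 0}
      add_mem' := fun {a b} ha hb => ⟨by rw [Matrix.mulVec_add, ha.1, hb.1], fun x hx => by
        rw [Matrix.mulVec_add, ha.2 x hx, hb.2 x hx, add_zero]⟩
      zero_mem' := ⟨Matrix.mulVec_zero _, fun x _ => Matrix.mulVec_zero _⟩
      smul_mem' := fun c a ha => ⟨by rw [Matrix.mulVec_smul, ha.1], fun x hx => by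
        rw [Matrix.mulVec_smul, ha.2 x hx, smul_zero]⟩ }
  have hV0 : ∀ v, v ∈ V0 ↔ pdL L deg 1 *ᵥ v = v ∧ ∀ x ∈ rad1 j P, x *ᵥ v = 0 :=
    fun v => Iff.rfl
  have hst : ∀ g : Γ, ∀ v ∈ V0, P.R g *ᵥ v ∈ V0 := by
    intro g v hv
    rw [hV0] at hv ⊢
    refine ⟨?_, fun x hx => ?_⟩
    · rw [Matrix.mulVec_mulVec, ← hRp g, ← Matrix.mulVec_mulVec, hv.1]
    · have h1 := hv.2 _ (rad1_conj hx g⁻¹)
      rw [inv_inv] at h1
      have h2 := congrArg (fun u => P.R g *ᵥ u) h1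
      beta_reduce at h2
      rw [Matrix.mulVec_zero, Matrix.mulVec_mulVec, ← Matrix.mul_assoc, ← Matrix.mul_assoc, R_inv,
        Matrix.one_mul, ← Matrix.mulVec_mulVec] at h2
      exact h2
  obtain ⟨U₁, h11, h12, h13, h14⟩ := hS V0 (fun u hu => hu.1) hst
  -- a complement
  let U' : Submodule L (ι → L) := U₁ ⊔ LinearMap.ker (Matrix.toLin' (pdL L deg 1))
  have hker : ∀ v, v ∈ LinearMap.ker (Matrix.toLin' (pdL L deg 1)) ↔ pdL L deg 1 *ᵥ v = 0 :=
    fun v => by rw [LinearMap.mem_ker, Matrix.toLin'_apply]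
  have hU'g : ∀ g : Γ, ∀ v ∈ U', P.R g *ᵥ v ∈ U' := by
    intro g v hv
    obtain ⟨a, ha, b, hb, rfl⟩ := Submodule.mem_sup.1 hv
    rw [Matrix.mulVec_add]
    refine Submodule.add_mem _ (Submodule.mem_sup_left (h12 g a ha))
      (Submodule.mem_sup_right ((hker _).2 ?_))
    rw [Matrix.mulVec_mulVec, ← hRp g, ← Matrix.mulVec_mulVec, (hker b).1 hb, Matrix.mulVec_zero]
  have hc : IsCompl V0 U' := by
    constructor
    · rw [Submodule.disjoint_def]
      intro v hv hv'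
      obtain ⟨a, ha, b, hb, h1⟩ := Submodule.mem_sup.1 hv'
      have h2 : v = a := by
        have h3 := congrArg (fun u => pdL L deg 1 *ᵥ u) h1
        beta_reduce at h3
        rw [Matrix.mulVec_add, h11 a ha, (hker b).1 hb, add_zero, hv.1] at h3
        exact h3.symm
      exact h13 v hv (h2 ▸ ha)
    · rw [codisjoint_iff, Submodule.eq_top_iff']
      intro v
      have h1 : v = pdL L deg 1 *ᵥ v + (v - pdL L deg 1 *ᵥ v) := by abel
      rw [h1]
      have h2 : v - pdL L deg 1 *ᵥ v ∈ V0 ⊔ U' := by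
        refine Submodule.mem_sup_right (Submodule.mem_sup_right ((hker _).2 ?_))
        rw [Matrix.mulVec_sub, Matrix.mulVec_mulVec, hpp, sub_self]
      have h3 : pdL L deg 1 *ᵥ v ∈ V0 ⊔ U' := by
        have h4 := h14 (pdL L deg 1 *ᵥ v) (by rw [Matrix.mulVec_mulVec, hpp])
        exact sup_le_sup_left le_sup_left V0 h4
      exact Submodule.add_mem _ h3 h2
  let f : (ι → L) →ₗ[L] (ι → L) := V0.subtype ∘ₗ V0.projectionOnto U' hc
  have hf0 : ∀ v, f v ∈ V0 := fun v => (V0.projectionOnto U' hc v).2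
  have hf1 : ∀ v ∈ V0, f v = v := by
    intro v hv
    change ((V0.projectionOnto U' hc v : V0) : ι → L) = v
    have := Submodule.projectionOnto_apply_left hc ⟨v, hv⟩
    rw [this]
  have hf2 : ∀ v ∈ U', f v = 0 := by
    intro v hv
    change ((V0.projectionOnto U' hc v : V0) : ι → L) = 0
    have := Submodule.projectionOnto_apply_right hc ⟨v, hv⟩
    rw [this]
    rfl
  have hf3 : ∀ g : Γ, ∀ v, f (P.R g *ᵥ v) = P.R g *ᵥ f v := by
    intro g v
    have hv : v ∈ V0 ⊔ U' := by rw [hc.sup_eq_top]; exact Submodule.mem_top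
    obtain ⟨a, ha, b, hb, rfl⟩ := Submodule.mem_sup.1 hv
    rw [Matrix.mulVec_add, map_add, hf1 _ (hst g a ha), hf2 _ (hU'g g b hb),
      map_add, hf1 a ha, hf2 b hb, add_zero, add_zero]
  obtain ⟨q, hq⟩ : ∃ q, q = LinearMap.toMatrix' f := ⟨_, rfl⟩
  have hqv : ∀ v, q *ᵥ v = f v := by
    intro v
    rw [hq, ← Matrix.toLin'_apply, Matrix.toLin'_toMatrix']
  have hqR : ∀ g : Γ, q * P.R g = P.R g * q := by
    intro g
    apply Matrix.mulVec_injective
    funext v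
    change (q * P.R g) *ᵥ v = (P.R g * q) *ᵥ v
    rw [← Matrix.mulVec_mulVec, ← Matrix.mulVec_mulVec, hqv, hqv, hf3]
  have hqp : pdL L deg 1 * q = q := by
    apply Matrix.mulVec_injective
    funext v
    change (pdL L deg 1 * q) *ᵥ v = q *ᵥ v
    rw [← Matrix.mulVec_mulVec, hqv, (hf0 v).1]
  have hqp' : q * pdL L deg 1 = q := by
    apply Matrix.mulVec_injective
    funext v
    change (q * pdL L deg 1) *ᵥ v = q *ᵥ v
    have h1 : f (v - pdL L deg 1 *ᵥ v) = 0 := hf2 _ (Submodule.mem_sup_right ((hker _).2 (by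
      rw [Matrix.mulVec_sub, Matrix.mulVec_mulVec, hpp, sub_self])))
    rw [map_sub, sub_eq_zero] at h1
    rw [← Matrix.mulVec_mulVec, hqv, hqv, h1]
  have hqd : ∀ i k, deg i ≠ deg k → q i k = 0 := by
    intro i k h
    by_cases hi : deg i = 1
    · rw [← hqp', pdL, Matrix.mul_diagonal, if_neg (fun hk => h (hi.trans hk.symm)), mul_zero]
    · rw [← hqp, pdL, Matrix.diagonal_mul, if_neg hi, zero_mul]
  -- it commutes with the Lie algebra
  have hTT : ar2 (q.map j * cQ H.Qir) ∈ TT j P 1 := by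
    refine comm_TT hd (Δ' := ⊤) hQ (fun i k h => ?_) fun g _ => ?_
    · rw [Matrix.map_apply, hqd i k h, map_zero]
    · rw [← map_mul_j, hqR, map_mul_j]
  have hcomm0 : ∀ x ∈ gL j P, x * q = q * x := by
    intro x hx
    apply map_inj_j (j := j)
    rw [map_mul_j, map_mul_j]
    exact LT_comm hd hQ hTT hx
  have hcomm : ∀ x ∈ rad1 j P, x * q = q * x := by
    intro x hx
    obtain ⟨y, hy, rfl⟩ := mem_g1.1 hx.1
    rw [Matrix.mul_assoc, hqp, hcomm0 y hy, ← Matrix.mul_assoc, ← hcomm0 y hy, Matrix.mul_assoc,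
      hqp', hcomm0 y hy]
  -- the kernel
  let W : Submodule L (ι → L) := LinearMap.ker (Matrix.toLin' q) ⊓
    LinearMap.ker (Matrix.toLin' (1 - pdL L deg 1))
  have hW : ∀ v, v ∈ W ↔ q *ᵥ v = 0 ∧ pdL L deg 1 *ᵥ v = v := fun v => by
    rw [Submodule.mem_inf, LinearMap.mem_ker, Matrix.toLin'_apply, LinearMap.mem_ker,
      Matrix.toLin'_apply, Matrix.sub_mulVec, Matrix.one_mulVec, sub_eq_zero]
    exact and_congr Iff.rfl eq_comm
  have hW0 : W = ⊥ := by
    by_contra hne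
    obtain ⟨v, hv, hv0, h1⟩ := engel (r := rad1 j P) (fun x hx y hy => rad1_br hd hQ hx hy)
      (fun x hx => rad1_nil hd hQ hx) (W := W) (fun x hx v hv => by
        rw [hW] at hv ⊢
        refine ⟨?_, ?_⟩
        · rw [Matrix.mulVec_mulVec, ← hcomm x hx, ← Matrix.mulVec_mulVec, hv.1,
            Matrix.mulVec_zero]
        · rw [Matrix.mulVec_mulVec, ← hxp x hx, ← Matrix.mulVec_mulVec, hv.2]) hne
    rw [hW] at hv
    have h2 : v ∈ V0 := (hV0 v).2 ⟨hv.2, h1⟩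
    rw [hqv, hf1 v h2] at hv
    exact hv0 hv.1
  rw [← g1_right hx.1]
  apply Matrix.mulVec_injective
  funext v
  change (x * pdL L deg 1) *ᵥ v = 0 *ᵥ v
  rw [Matrix.zero_mulVec, ← Matrix.mulVec_mulVec]
  obtain ⟨u, hu⟩ : ∃ u, u = pdL L deg 1 *ᵥ v := ⟨_, rfl⟩
  have hup : pdL L deg 1 *ᵥ u = u := by rw [hu, Matrix.mulVec_mulVec, hpp]
  have h2 : u - q *ᵥ u ∈ W := by
    rw [hW, Matrix.mulVec_sub, Matrix.mulVec_sub, Matrix.mulVec_mulVec, Matrix.mulVec_mulVec, hqp,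
      hup]
    refine ⟨?_, rfl⟩
    rw [← Matrix.mulVec_mulVec, hqv (q *ᵥ u), hqv u, hf1 _ (hf0 u), sub_self]
  rw [hW0, Submodule.mem_bot, sub_eq_zero] at h2
  rw [← hu, h2, hqv]
  exact (hf0 u).2 x hx

/-- The compression to the degree one part. -/
noncomputable def cmp (deg : ι → ℕ) : Matrix ι ι L →ₗ[L] Matrix ι ι L :=
  LinearMap.mulLeft L (pdL L deg 1) ∘ₗ LinearMap.mulRight L (pdL L deg 1)

lemma cmp_apply (x : Matrix ι ι L) : cmp deg x = pdL L deg 1 * (x * pdL L deg 1) := rfl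

/-- **The equivariant projector to the degree one part of the Lie algebra.** -/
theorem exists_f1 [IsTopologicalGroup Γ] (hS : SS1 P) (hd : Hom2 deg H) {Δ : OpenSubgroup Γ}
    (hQ : InvQ j P H Δ) : ∃ f : Matrix ι ι L →ₗ[L] Matrix ι ι L, (∀ x, f x ∈ g1 j P) ∧
      (∀ x ∈ g1 j P, f x = x) ∧ (∀ g, ∀ x, f (P.R g * x * P.R g⁻¹) = P.R g * f x * P.R g⁻¹) ∧
      ∀ x, f x = f (pdL L deg 1 * (x * pdL L deg 1)) := by
  have hrefl : (trF : LinearMap.BilinForm L (Matrix ι ι L)).IsRefl := by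
    intro x y h
    rw [trF_apply] at h ⊢
    rw [Matrix.trace_mul_comm, h]
  obtain ⟨U', hU'⟩ : ∃ U', U' = (trF : LinearMap.BilinForm L (Matrix ι ι L)).orthogonal (g1 j P) :=
    ⟨_, rfl⟩
  have hc : IsCompl (g1 j P) U' := by
    rw [hU', LinearMap.BilinForm.isCompl_orthogonal_iff_disjoint hrefl, Submodule.disjoint_def]
    intro x hx hx'
    refine rad1_zero hS hd hQ ⟨hx, fun y hy => ?_⟩
    have h2 := hx' y hy
    rw [Matrix.trace_mul_comm]
    exact h2
  have hU'g : ∀ g : Γ, ∀ x ∈ U', P.R g * x * P.R g⁻¹ ∈ U' := by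
    intro g x hx
    rw [hU'] at hx ⊢
    intro y hy
    have h2 := g1_conj hy g⁻¹
    rw [inv_inv] at h2
    have h3 := hx _ h2
    change ((P.R g⁻¹ * y * P.R g) * x).trace = 0 at h3
    change (y * (P.R g * x * P.R g⁻¹)).trace = 0
    rw [← h3]
    rw [← Matrix.mul_assoc, Matrix.trace_mul_comm]
    simp only [Matrix.mul_assoc]
  let f : Matrix ι ι L →ₗ[L] Matrix ι ι L :=
    (g1 j P).subtype ∘ₗ (g1 j P).projectionOnto U' hc
  have hf1 : ∀ x ∈ g1 j P, f x = x := by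
    intro x hx
    change (((g1 j P).projectionOnto U' hc x : g1 j P) : Matrix ι ι L) = x
    have := Submodule.projectionOnto_apply_left hc ⟨x, hx⟩
    rw [this]
  have hf2 : ∀ x ∈ U', f x = 0 := by
    intro x hx
    change (((g1 j P).projectionOnto U' hc x : g1 j P) : Matrix ι ι L) = 0
    have := Submodule.projectionOnto_apply_right hc ⟨x, hx⟩
    rw [this]
    rfl
  have hf3 : ∀ g : Γ, ∀ x, f (P.R g * x * P.R g⁻¹) = P.R g * f x * P.R g⁻¹ := by
    intro g x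
    have hx : x ∈ g1 j P ⊔ U' := by rw [hc.sup_eq_top]; exact Submodule.mem_top
    obtain ⟨a, ha, b, hb, rfl⟩ := Submodule.mem_sup.1 hx
    rw [Matrix.mul_add, Matrix.add_mul, map_add, hf1 _ (g1_conj ha g), hf2 _ (hU'g g b hb),
      map_add, hf1 a ha, hf2 b hb, add_zero, add_zero]
  have hpp := pdL_sq (ι := ι) L deg 1
  have hcm : ∀ x : Matrix ι ι L, cmp deg (cmp deg x) = cmp deg x := by
    intro x
    rw [cmp_apply, cmp_apply]
    rw [Matrix.mul_assoc (pdL L deg 1) (x * pdL L deg 1), Matrix.mul_assoc x, hpp,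
      ← Matrix.mul_assoc (pdL L deg 1) (pdL L deg 1), hpp]
  refine ⟨f ∘ₗ cmp deg, fun x => ((g1 j P).projectionOnto U' hc _).2, fun x hx => ?_,
    fun g x => ?_, fun x => ?_⟩
  · change f (cmp deg x) = x
    rw [cmp_apply, g1_right hx, g1_left hd hQ hx, hf1 x hx]
  · change f (cmp deg (P.R g * x * P.R g⁻¹)) = P.R g * f (cmp deg x) * P.R g⁻¹
    rw [cmp_apply, cmp_apply, ← hf3]
    congr 1
    rw [Matrix.mul_assoc _ _ (pdL L deg 1), RpdL]
    have h1 := RpdL P g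
    calc pdL L deg 1 * (P.R g * x * (pdL L deg 1 * P.R g⁻¹)) =
        (pdL L deg 1 * P.R g) * x * pdL L deg 1 * P.R g⁻¹ := by simp only [Matrix.mul_assoc]
      _ = _ := by rw [← h1]; simp only [Matrix.mul_assoc]
  · change f (cmp deg x) = f (cmp deg (cmp deg x))
    rw [hcm]

end Pool.Agent.L0h10.RY
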